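import Mathlib.Algebra.Order.Field.GeomSum
import Mathlib.Algebra.Order.Star.Real
import Mathlib.Analysis.Complex.ExponentialBounds
import Pool.Agent.MP_45d82d_co.Param

-- ======== part 0: formerly Pool.Agent.MP_45d82d_co.neg.Geo
section MrgPart0

/-!
Point configurations: a base permutation, four decreasing tails and one corner point.
-/

set_option autoImplicit false

open Finset Equiv

namespace Pool.Agent.MP_45d82d_co.Neg

lemma exists_enum {ι : Type*} (S : Finset ι) (X : ι → ℕ) (hX : Set.InjOn X S) {N : ℕ}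
    (hN : S.card = N) : ∃ e : Fin N ≃ S, ∀ i j, i < j ↔ X (e i) < X (e j) := by
  have hc : (S.image X).card = N := by rw [card_image_of_injOn hX, hN]
  let o := (S.image X).orderIsoOfFin hc
  let b : S ≃ (S.image X) := Equiv.ofBijective (fun u => ⟨X u, mem_image_of_mem _ u.2⟩)
    ⟨fun u v h => Subtype.ext (hX u.2 v.2 (congrArg Subtype.val h)), fun w => by
      obtain ⟨u, hu, e⟩ := mem_image.1 w.2
      exact ⟨⟨u, hu⟩, Subtype.ext e⟩⟩
  refine ⟨o.toEquiv.trans b.symm, fun i j => ?_⟩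
  have : ∀ i, X ((o.toEquiv.trans b.symm) i) = (o i : ℕ) := fun i =>
    congrArg Subtype.val (b.apply_symm_apply (o i))
  rw [this, this]
  exact o.lt_iff_lt.symm

/-- `π` is the pattern of the point set `S`, listed from left to right by `e`. -/
structure Rep {ι : Type*} (S : Finset ι) (X Y : ι → ℕ) {N : ℕ} (π : Perm (Fin N))
    (e : Fin N → ι) : Prop where
  mem : ∀ i, e i ∈ S
  surj : ∀ u ∈ S, ∃ i, e i = u
  hx : ∀ i j, i < j ↔ X (e i) < X (e j)
  hy : ∀ i j, π i < π j ↔ Y (e i) < Y (e j)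

lemma exists_rep {ι : Type*} (S : Finset ι) (X Y : ι → ℕ) (hX : Set.InjOn X S)
    (hY : Set.InjOn Y S) {N : ℕ} (hN : S.card = N) :
    ∃ (π : Perm (Fin N)) (e : Fin N → ι), Rep S X Y π e := by
  obtain ⟨a, ha⟩ := exists_enum S X hX hN
  obtain ⟨b, hb⟩ := exists_enum S Y hY hN
  refine ⟨a.trans b.symm, fun i => a i, fun i => (a i).2, fun u hu => ⟨a.symm ⟨u, hu⟩, by simp⟩,
    ha, fun i j => ?_⟩
  rw [hb]
  simp

lemma Rep.inj {ι : Type*} {S : Finset ι} {X Y : ι → ℕ} {N : ℕ} {π : Perm (Fin N)}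
    {e : Fin N → ι} (h : Rep S X Y π e) : Function.Injective e := by
  intro i j hij
  have h1 := h.hx i j
  have h2 := h.hx j i
  rw [hij] at h1 h2
  exact le_antisymm (not_lt.1 fun h' => lt_irrefl _ (h2.1 h')) (not_lt.1 fun h' => lt_irrefl _ (h1.1 h'))

/-- The kinds of points. -/
inductive Tag
  | b | H | L | T | R | z
  deriving DecidableEq, Fintype

lemma sum_tag (f : Tag → ℕ) :
    ∑ k, f k = f .b + f .H + f .L + f .T + f .R + f .z := by
  have : (univ : Finset Tag) = {.b, .H, .L, .T, .R, .z} := by decide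
  rw [this]
  simp only [mem_insert, mem_singleton, reduceCtorEq, or_self, not_false_eq_true, sum_insert,
    sum_singleton]
  ring

/-- Points are a kind with an index. -/
abbrev Pt := Σ _ : Tag, ℕ

/-- The data of a configuration. -/
structure Cfg where
  M : ℕ
  ρ : ℕ → ℕ
  H : Finset ℕ
  L : Finset ℕ
  T : Finset ℕ
  R : Finset ℕ
  a : ℕ
  g : ℕ

namespace Cfg

/-- The index sets. -/
def S (C : Cfg) : Tag → Finset ℕ
  | .b => range C.M
  | .H => C.H
  | .L => C.L
  | .T => C.T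
  | .R => C.R
  | .z => {0}

/-- The points. -/
def pts (C : Cfg) : Finset Pt := univ.sigma C.S

/-- The abscissa. -/
def X (p : ℕ) (C : Cfg) : Pt → ℕ
  | ⟨.b, k⟩ => p + 1 + 3 * k
  | ⟨.H, g⟩ => g
  | ⟨.L, g⟩ => p + 3 * (C.M - g)
  | ⟨.T, g⟩ => p + 3 * g
  | ⟨.R, g⟩ => p + 1 + 3 * C.M + (p - g)
  | ⟨.z, _⟩ => p + 3 * C.a - 1

/-- The ordinate. -/
def Y (p : ℕ) (C : Cfg) : Pt → ℕ
  | ⟨.b, k⟩ => p + 1 + 3 * C.ρ k
  | ⟨.H, g⟩ => p + 3 * (C.M - g)
  | ⟨.L, g⟩ => g
  | ⟨.T, g⟩ => p + 1 + 3 * C.M + 2 * (p - g) + 2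
  | ⟨.R, g⟩ => p + 3 * g
  | ⟨.z, _⟩ => p + 1 + 3 * C.M + 2 * (p - C.g) + 1

/-- The number of base points to the left. -/
def vx (C : Cfg) : Pt → ℕ
  | ⟨.b, k⟩ => k
  | ⟨.H, _⟩ => 0
  | ⟨.L, g⟩ => C.M - g
  | ⟨.T, g⟩ => g
  | ⟨.R, _⟩ => C.M
  | ⟨.z, _⟩ => C.a

/-- The number of base points below. -/
def vy (C : Cfg) : Pt → ℕ
  | ⟨.b, k⟩ => C.ρ k
  | ⟨.H, g⟩ => C.M - g
  | ⟨.L, _⟩ => 0
  | ⟨.T, _⟩ => C.M
  | ⟨.R, g⟩ => g
  | ⟨.z, _⟩ => C.M

/-- The bounds on the index of a point. -/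
def Ok (p : ℕ) (C : Cfg) : Pt → Prop
  | ⟨.b, k⟩ => k < C.M ∧ C.ρ k < C.M ∧ (k < p ↔ C.ρ k < p) ∧ (C.M ≤ k + p ↔ C.M ≤ C.ρ k + p)
  | ⟨.H, g⟩ => 1 ≤ g ∧ g ≤ p
  | ⟨.L, g⟩ => 1 ≤ g ∧ g ≤ p
  | ⟨.T, g⟩ => 1 ≤ g ∧ g ≤ p
  | ⟨.R, g⟩ => 1 ≤ g ∧ g ≤ p
  | ⟨.z, g⟩ => g = 0

/-- Valid configurations. -/
structure Valid (p W : ℕ) (C : Cfg) : Prop where
  size : C.M + C.H.card + C.L.card + C.T.card + C.R.card + 1 = 2 * p + 4 * W + 2
  cH : C.H.card ≤ W
  cL : C.L.card ≤ W
  cT : C.T.card ≤ W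
  cR : C.R.card ≤ W
  sH : C.H ⊆ Icc 1 p
  sL : C.L ⊆ Icc 1 p
  sT : C.T ⊆ Icc 1 p
  sR : C.R ⊆ Icc 1 p
  gT : C.g ∈ C.T
  a1 : 1 ≤ C.a
  ag : C.a ≤ C.g
  lt : ∀ k, k < C.M → C.ρ k < C.M
  inj : ∀ k l, k < C.M → l < C.M → C.ρ k = C.ρ l → k = l
  low : ∀ k, k < C.M → (k < p ↔ C.ρ k < p)
  high : ∀ k, k < C.M → (C.M ≤ k + p ↔ C.M ≤ C.ρ k + p)
  inv : ∀ k l, k < l → l < C.M → C.ρ l < C.ρ k → l < p ∨ C.M ≤ k + p
  n132 : ∀ k l m, k < l → l < m → m < p → C.ρ k < C.ρ m → C.ρ m < C.ρ l → False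
  n213 : ∀ k l m, k < l → l < m → m < C.M → C.M ≤ k + p → C.ρ l < C.ρ k → C.ρ k < C.ρ m → False
  win : ∀ k l, k < C.a → C.a ≤ l → l < C.g → C.ρ l < C.ρ k

variable {p W : ℕ} {C : Cfg}

lemma mem_pts {u : Pt} : u ∈ C.pts ↔ u.2 ∈ C.S u.1 := by
  simp [pts]

lemma Valid.hM (h : C.Valid p W) : 2 * p < C.M := by
  have := h.size; have := h.cH; have := h.cL; have := h.cT; have := h.cR
  omega

lemma Valid.gp (h : C.Valid p W) : C.g ≤ p := (mem_Icc.1 (h.sT h.gT)).2

lemma Valid.ok (h : C.Valid p W) {u : Pt} (hu : u ∈ C.pts) : C.Ok p u := by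
  obtain ⟨k, i⟩ := u
  rw [mem_pts] at hu
  cases k
  · have := mem_range.1 hu
    exact ⟨this, h.lt i this, h.low i this, h.high i this⟩
  · exact mem_Icc.1 (h.sH hu)
  · exact mem_Icc.1 (h.sL hu)
  · exact mem_Icc.1 (h.sT hu)
  · exact mem_Icc.1 (h.sR hu)
  · exact mem_singleton.1 hu

lemma Valid.card_pts (h : C.Valid p W) : C.pts.card = 2 * p + 4 * W + 2 := by
  rw [pts, card_sigma, sum_tag, ← h.size]
  simp [S]

lemma Valid.injX (h : C.Valid p W) : Set.InjOn (C.X p) C.pts := by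
  rintro ⟨k, i⟩ hu ⟨l, j⟩ hv e
  have h1 := h.ok hu
  have h2 := h.ok hv
  have := h.hM; have := h.gp; have := h.a1; have := h.ag
  cases k <;> cases l <;> simp only [X, Ok] at e h1 h2 <;>
    first
      | omega
      | (obtain rfl : i = j := by omega
         rfl)

lemma Valid.injY (h : C.Valid p W) : Set.InjOn (C.Y p) C.pts := by
  rintro ⟨k, i⟩ hu ⟨l, j⟩ hv e
  have h1 := h.ok hu
  have h2 := h.ok hv
  have := h.hM; have := h.gp; have := h.a1; have := h.ag
  have h3 := h.inj i j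
  cases k <;> cases l <;> simp only [Y, Ok] at e h1 h2 <;>
    first
      | omega
      | (obtain rfl : i = j := by omega
         rfl)

lemma Valid.exists_rep (h : C.Valid p W) :
    ∃ (π : Perm (Fin (2 * p + 4 * W + 2))) (e : Fin (2 * p + 4 * W + 2) → Pt),
      Rep C.pts (C.X p) (C.Y p) π e :=
  Neg.exists_rep _ _ _ h.injX h.injY h.card_pts

/-- A point with a point to its south-west and one to its north-east is a base point or `z`. -/
lemma Valid.mid (h : C.Valid p W) {u v w : Pt} (hu : u ∈ C.pts) (hv : v ∈ C.pts) (hw : w ∈ C.pts)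
    (h1 : C.X p u < C.X p v) (h2 : C.Y p u < C.Y p v) (h3 : C.X p v < C.X p w)
    (h4 : C.Y p v < C.Y p w) : v.1 = .b ∨ v.1 = .z := by
  obtain ⟨k, i⟩ := u
  obtain ⟨l, j⟩ := v
  obtain ⟨m, r⟩ := w
  have a1 := h.ok hu
  have a2 := h.ok hv
  have a3 := h.ok hw
  have := h.hM; have := h.gp; have := h.a1; have := h.ag
  cases l
  · exact Or.inl rfl
  · cases k <;> simp only [X, Y, Ok] at h1 h2 a1 a2 <;> omega
  · cases k <;> simp only [X, Y, Ok] at h1 h2 a1 a2 <;> omega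
  · cases m <;> simp only [X, Y, Ok] at h3 h4 a2 a3 <;> omega
  · cases m <;> simp only [X, Y, Ok] at h3 h4 a2 a3 <;> omega
  · exact Or.inr rfl

lemma Valid.avoid (h : C.Valid p W) {N : ℕ} {π : Perm (Fin N)} {e : Fin N → Pt}
    (r : Rep C.pts (C.X p) (C.Y p) π e) : Avoid π := by
  rintro ⟨a, b, c, d, h1, h2, h3, h4, h5, h6⟩
  rw [r.hx] at h1 h2 h3
  rw [r.hy] at h4 h5 h6
  have ma := r.mem a
  have mb := r.mem b
  have mc := r.mem c
  have md := r.mem d
  generalize e a = u1 at *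
  generalize e b = u3 at *
  generalize e c = u2 at *
  generalize e d = u4 at *
  have t3 := h.mid ma mb md h1 (h4.trans h5) (h2.trans h3) h6
  have t2 := h.mid ma mc md (h1.trans h2) h4 h3 (h5.trans h6)
  have a1 := h.ok ma
  have a3 := h.ok mb
  have a2 := h.ok mc
  have a4 := h.ok md
  obtain ⟨k1, i1⟩ := u1
  obtain ⟨k2, i2⟩ := u2
  obtain ⟨k3, i3⟩ := u3
  obtain ⟨k4, i4⟩ := u4
  have := h.hM; have := h.gp; have := h.a1; have := h.ag
  dsimp only at t2 t3
  rcases t2 with rfl | rfl <;> rcases t3 with rfl | rfl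
  · simp only [X, Y, Ok] at h2 h5 a2 a3
    rcases h.inv i3 i2 (by omega) a2.1 (by omega) with h7 | h7
    · have h8 := h.n132 i1 i3 i2
      cases k1 <;> simp only [X, Y, Ok] at h1 h4 a1 <;>
        first
          | omega
          | exact h8 (by omega) (by omega) (by omega) (by omega) (by omega)
    · have h8 := h.n213 i3 i2 i4
      cases k4 <;> simp only [X, Y, Ok] at h3 h6 a4 <;>
        first
          | omega
          | exact h8 (by omega) (by omega) (by omega) (by omega) (by omega) (by omega)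
  · simp only [X, Y, Ok] at h2 h5 a2 a3
    have h7 : i2 < C.g := by
      cases k4 <;> simp only [X, Y, Ok] at h3 h6 a4 <;> omega
    have h8 := h.win i1 i2
    cases k1 <;> simp only [X, Y, Ok] at h1 h4 a1 <;> omega
  · simp only [X, Y, Ok] at h2 h5 a2 a3
    omega
  · simp only [X, Y, Ok] at h2 h5 a2 a3
    omega

lemma Valid.vx_spec (h : C.Valid p W) {u : Pt} (hu : u ∈ C.pts) :
    C.vx u ≤ C.M ∧ ∀ k, k < C.M → (C.X p ⟨.b, k⟩ < C.X p u ↔ k < C.vx u) := by
  have a1 := h.ok hu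
  obtain ⟨l, i⟩ := u
  have := h.hM; have := h.gp; have := h.a1; have := h.ag
  cases l <;> simp only [X, vx, Ok] at a1 ⊢ <;> exact ⟨by omega, fun k hk => by omega⟩

lemma Valid.vy_spec (h : C.Valid p W) {u : Pt} (hu : u ∈ C.pts) :
    C.vy u ≤ C.M ∧ ∀ k, k < C.M → (C.Y p ⟨.b, k⟩ < C.Y p u ↔ C.ρ k < C.vy u) := by
  have a1 := h.ok hu
  obtain ⟨l, i⟩ := u
  have := h.hM; have := h.gp; have := h.a1; have := h.ag
  cases l <;> simp only [Y, vy, Ok] at a1 ⊢ <;>
    exact ⟨by omega, fun k hk => by have := h.lt k hk; omega⟩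

lemma Valid.cnt (h : C.Valid p W) {r : ℕ} (hr : r ≤ C.M) :
    ((range C.M).filter fun k => C.ρ k < r).card = r := by
  have hi : Set.InjOn C.ρ (range C.M) := fun k hk l hl e =>
    h.inj k l (mem_range.1 hk) (mem_range.1 hl) e
  have h1 : (range C.M).image C.ρ = range C.M := by
    refine eq_of_subset_of_card_le (fun y hy => ?_) (by rw [card_image_of_injOn hi])
    obtain ⟨k, hk, rfl⟩ := mem_image.1 hy
    exact mem_range.2 (h.lt k (mem_range.1 hk))
  have h2 : ((range C.M).filter fun k => C.ρ k < r).image C.ρ = range r := by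
    rw [← filter_image (p := fun y => y < r), h1]
    ext y
    simp only [mem_filter, mem_range]
    omega
  rw [← card_image_of_injOn (hi.mono (coe_subset.2 (filter_subset _ _))), h2, card_range]

end Cfg

end Pool.Agent.MP_45d82d_co.Neg

end MrgPart0

-- ======== part 1: formerly Pool.Agent.MP_45d82d_co.neg.Dec
section MrgPart1

/-!
The number of inversions of a configuration, and its recovery from the pattern.
-/

set_option autoImplicit false

open Finset Equiv

namespace Pool.Agent.MP_45d82d_co.Neg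

namespace Cfg

variable {p W : ℕ} {C : Cfg}

/-- The inversions of the base. -/
def invB (C : Cfg) : ℕ :=
  ∑ k ∈ range C.M, ∑ l ∈ range C.M, if k < l ∧ C.ρ l < C.ρ k then 1 else 0

/-- The indicator of an inversion. -/
def ind (p : ℕ) (C : Cfg) (u v : Pt) : ℕ :=
  if C.X p u < C.X p v ∧ C.Y p v < C.Y p u then 1 else 0

/-- A bound for the number of inversions with base points. -/
def dd (N : ℕ) : Pt → ℕ
  | ⟨.b, _⟩ => 0
  | ⟨.z, _⟩ => N
  | ⟨_, g⟩ => N - g

lemma sum_base (C : Cfg) (F : Pt → ℕ) :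
    ∑ u ∈ C.pts.filter (fun u => u.1 = .b), F u = ∑ k ∈ range C.M, F ⟨.b, k⟩ := by
  rw [sum_filter, pts, sum_sigma, sum_tag]
  simp [S]

lemma Valid.card_nb (h : C.Valid p W) : (C.pts.filter fun u => ¬ u.1 = .b).card ≤ 4 * W + 1 := by
  rw [card_filter, pts, sum_sigma, sum_tag]
  have := h.cH; have := h.cL; have := h.cT; have := h.cR
  simp [S]
  omega

lemma Valid.deg_le (h : C.Valid p W) {N : ℕ} (hN : C.M ≤ N) {u : Pt} (hu : u ∈ C.pts)
    (hb : ¬ u.1 = .b) :
    ∑ k ∈ range C.M, (C.ind p u ⟨.b, k⟩ + C.ind p ⟨.b, k⟩ u) ≤ dd N u := by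
  have a1 := h.ok hu
  obtain ⟨l, g⟩ := u
  have := h.hM; have := h.gp; have := h.a1; have := h.ag
  have key : ∀ (Q : ℕ → Prop) [DecidablePred Q] (F : ℕ → ℕ) (d : ℕ),
      (∀ k, k < C.M → F k ≤ if Q k then 1 else 0) → ((range C.M).filter Q).card ≤ d →
      ∑ k ∈ range C.M, F k ≤ d := by
    intro Q _ F d h1 h2
    rw [card_filter] at h2
    exact (sum_le_sum fun k hk => h1 k (mem_range.1 hk)).trans h2
  have c1 : ∀ r, r ≤ C.M → ((range C.M).filter fun k => k < r).card = r := by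
    intro r hr
    have : ((range C.M).filter fun k => k < r) = range r := by
      ext k
      simp only [mem_filter, mem_range]
      omega
    rw [this, card_range]
  cases l
  · exact absurd rfl hb
  · refine key (fun k => C.ρ k < C.M - g) _ _ (fun k hk => ?_) ?_
    · simp only [ind, X, Y, Ok] at a1 ⊢
      split_ifs <;> omega
    · rw [h.cnt (by omega)]
      simp only [dd]
      omega
  · refine key (fun k => k < C.M - g) _ _ (fun k hk => ?_) ?_
    · simp only [ind, X, Y, Ok] at a1 ⊢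
      split_ifs <;> omega
    · rw [c1 _ (by omega)]
      simp only [dd]
      omega
  · refine key (fun k => ¬ k < g) _ _ (fun k hk => ?_) ?_
    · have := h.lt k hk
      simp only [ind, X, Y, Ok] at a1 ⊢
      split_ifs <;> omega
    · have h1 := card_filter_add_card_filter_not (s := range C.M) fun k => k < g
      simp only [Ok] at a1
      rw [c1 _ (by omega), card_range] at h1
      simp only [dd]
      omega
  · refine key (fun k => ¬ C.ρ k < g) _ _ (fun k hk => ?_) ?_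
    · simp only [ind, X, Y, Ok] at a1 ⊢
      split_ifs <;> omega
    · have h1 := card_filter_add_card_filter_not (s := range C.M) fun k => C.ρ k < g
      simp only [Ok] at a1
      rw [h.cnt (by omega), card_range] at h1
      simp only [dd]
      omega
  · refine key (fun _ => True) _ _ (fun k hk => ?_) ?_
    · simp only [ind, if_true]
      split_ifs <;> omega
    · simp only [dd, filter_true, card_range]
      exact hN

lemma Valid.invs_le (h : C.Valid p W) {N : ℕ} (hN : C.M ≤ N) {π : Perm (Fin N)} {e : Fin N → Pt}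
    (r : Rep C.pts (C.X p) (C.Y p) π e) :
    (invs π).card ≤ C.invB + (∑ g ∈ C.H, (N - g) + ∑ g ∈ C.L, (N - g) + ∑ g ∈ C.T, (N - g) +
      ∑ g ∈ C.R, (N - g) + N) + (4 * W + 1) ^ 2 := by
  have h1 : (invs π).card ≤ ∑ u ∈ C.pts, ∑ v ∈ C.pts, C.ind p u v := by
    simp only [ind]
    rw [← sum_product', ← card_filter]
    refine card_le_card_of_injOn (fun q => (e q.1, e q.2)) (fun q hq => ?_) ?_
    · have := mem_invs.1 hq
      exact mem_filter.2 ⟨mem_product.2 ⟨r.mem _, r.mem _⟩, (r.hx _ _).1 this.1, (r.hy _ _).1 this.2⟩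
    · intro q _ q' _ hq
      exact Prod.ext (r.inj (congrArg Prod.fst hq)) (r.inj (congrArg Prod.snd hq))
  refine h1.trans ?_
  have split : ∀ F : Pt → ℕ, ∑ u ∈ C.pts, F u = ∑ k ∈ range C.M, F ⟨.b, k⟩ +
      ∑ u ∈ C.pts.filter (fun u => ¬ u.1 = .b), F u := by
    intro F
    rw [← sum_base, sum_filter_add_sum_filter_not]
  rw [split]
  simp only [split (C.ind p _), sum_add_distrib]
  have b1 : ∑ k ∈ range C.M, ∑ l ∈ range C.M, C.ind p ⟨.b, k⟩ ⟨.b, l⟩ = C.invB := by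
    refine sum_congr rfl fun k _ => sum_congr rfl fun l _ => ?_
    simp only [ind, X, Y]
    split_ifs <;> omega
  have b2 : ∑ u ∈ C.pts.filter (fun u => ¬ u.1 = .b), ∑ v ∈ C.pts.filter (fun u => ¬ u.1 = .b),
      C.ind p u v ≤ (4 * W + 1) ^ 2 := by
    have := h.card_nb
    calc _ ≤ ∑ u ∈ C.pts.filter (fun u => ¬ u.1 = .b),
          ∑ v ∈ C.pts.filter (fun u => ¬ u.1 = .b), 1 := by
          refine sum_le_sum fun u _ => sum_le_sum fun v _ => ?_
          simp only [ind]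
          split_ifs <;> omega
      _ ≤ _ := by
          simp only [sum_const, smul_eq_mul, mul_one]
          rw [sq]
          exact Nat.mul_le_mul this this
  have b3 : ∑ k ∈ range C.M, ∑ v ∈ C.pts.filter (fun u => ¬ u.1 = .b), C.ind p ⟨.b, k⟩ v +
      ∑ u ∈ C.pts.filter (fun u => ¬ u.1 = .b), ∑ k ∈ range C.M, C.ind p u ⟨.b, k⟩ ≤
      ∑ u ∈ C.pts, dd N u := by
    rw [sum_comm, add_comm, ← sum_add_distrib]
    refine le_trans (sum_le_sum fun u hu => ?_) (sum_le_sum_of_subset (filter_subset _ _))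
    rw [← sum_add_distrib]
    exact h.deg_le hN (mem_filter.1 hu).1 (mem_filter.1 hu).2
  have b4 : ∑ u ∈ C.pts, dd N u = ∑ g ∈ C.H, (N - g) + ∑ g ∈ C.L, (N - g) + ∑ g ∈ C.T, (N - g) +
      ∑ g ∈ C.R, (N - g) + N := by
    rw [pts, sum_sigma, sum_tag]
    simp [S, dd]
  omega

/-- The class of a kind: base, north-west, south-east. -/
def cls : Tag → ℕ
  | .b => 0
  | .H => 1
  | .T => 1
  | .z => 1
  | .L => 2
  | .R => 2

/-- The indices of the points in the left part. -/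
def SL (p : ℕ) (C : Cfg) : Tag → Finset ℕ
  | .b => range p
  | .H => C.H
  | .T => C.T
  | .z => {0}
  | .L => ∅
  | .R => ∅

/-- The indices of the points in the right part. -/
def SR (p : ℕ) (C : Cfg) : Tag → Finset ℕ
  | .b => Ico (C.M - p) C.M
  | .H => ∅
  | .T => ∅
  | .z => ∅
  | .L => C.L
  | .R => C.R

lemma Valid.centre (h : C.Valid p W) {π : Perm (Fin (2 * p + 4 * W + 2))}
    {e : Fin (2 * p + 4 * W + 2) → Pt} (r : Rep C.pts (C.X p) (C.Y p) π e)
    (c : Fin (2 * p + 4 * W + 2)) (hc : c.val = p + 2 * W + 1) :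
    ∃ k, e c = ⟨.b, k⟩ ∧ p ≤ k ∧ k + p < C.M := by
  have := h.hM; have := h.gp; have := h.a1; have := h.ag
  have := h.cH; have := h.cL; have := h.cT; have := h.cR
  have hl : ¬ C.X p (e c) < p + 1 + 3 * p := by
    intro hlt
    have h1 : (Iic c).card ≤ ((univ : Finset Tag).sigma (C.SL p) : Finset Pt).card := by
      refine card_le_card_of_injOn e (fun j hj => ?_) r.inj.injOn
      have h2 : C.X p (e j) < p + 1 + 3 * p := by
        have := r.hx c j
        have : ¬ c < j := not_lt.2 (mem_Iic.1 hj)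
        omega
      have h3 := r.mem j
      have h4 := h.ok h3
      rw [mem_pts] at h3
      rw [mem_coe, mem_sigma]
      refine ⟨mem_univ _, ?_⟩
      generalize e j = u at *
      obtain ⟨k, i⟩ := u
      cases k <;> simp only [X, Ok, S, SL, mem_range] at h2 h3 h4 ⊢ <;>
        first
          | exact h3
          | omega
    rw [card_sigma, sum_tag, Fin.card_Iic] at h1
    simp only [SL, card_range, card_empty, card_singleton] at h1
    omega
  have hr : C.X p (e c) < p + 3 * (C.M - p) := by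
    by_contra hlt
    have h1 : (Ici c).card ≤ ((univ : Finset Tag).sigma (C.SR p) : Finset Pt).card := by
      refine card_le_card_of_injOn e (fun j hj => ?_) r.inj.injOn
      have h2 : ¬ C.X p (e j) < p + 3 * (C.M - p) := by
        have := r.hx j c
        have : ¬ j < c := not_lt.2 (mem_Ici.1 hj)
        omega
      have h3 := r.mem j
      have h4 := h.ok h3
      rw [mem_pts] at h3
      rw [mem_coe, mem_sigma]
      refine ⟨mem_univ _, ?_⟩
      generalize e j = u at *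
      obtain ⟨k, i⟩ := u
      cases k <;> simp only [X, Ok, S, SR, mem_range, mem_Ico] at h2 h3 h4 ⊢ <;>
        first
          | exact h3
          | omega
    rw [card_sigma, sum_tag, Fin.card_Ici] at h1
    simp only [SR, Nat.card_Ico, card_empty] at h1
    omega
  have h4 := h.ok (r.mem c)
  generalize e c = u at *
  obtain ⟨k, i⟩ := u
  cases k <;> simp only [X, Ok] at hl hr h4
  · exact ⟨i, rfl, by omega, by omega⟩
  all_goals omega

lemma Valid.cls_eq (h : C.Valid p W) {π : Perm (Fin (2 * p + 4 * W + 2))}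
    {e : Fin (2 * p + 4 * W + 2) → Pt} (r : Rep C.pts (C.X p) (C.Y p) π e)
    (c : Fin (2 * p + 4 * W + 2)) (hc : c.val = p + 2 * W + 1) (i : Fin (2 * p + 4 * W + 2)) :
    cls (e i).1 = if i < c ∧ π c < π i then 1 else if c < i ∧ π i < π c then 2 else 0 := by
  obtain ⟨k, hk, h1, h2⟩ := h.centre r c hc
  simp only [r.hy c i, r.hy i c, r.hx i c, r.hx c i, hk]
  have a1 := h.ok (r.mem i)
  have a2 := h.ok (r.mem c)
  rw [hk] at a2
  generalize e i = u at *
  obtain ⟨l, j⟩ := u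
  have := h.hM; have := h.gp; have := h.a1; have := h.ag
  have h3 := h.inv j k
  have h4 := h.inv k j
  cases l <;> simp only [X, Y, Ok, cls] at a1 a2 ⊢ <;> split_ifs <;> omega

lemma cls_zero {k : Tag} : cls k = 0 ↔ k = .b := by
  cases k <;> simp [cls]

lemma card_base {N : ℕ} {π : Perm (Fin N)} {e : Fin N → Pt} (r : Rep C.pts (C.X p) (C.Y p) π e)
    (Q : Pt → Prop) [DecidablePred Q] :
    (univ.filter fun j => cls (e j).1 = 0 ∧ Q (e j)).card =
      ((range C.M).filter fun k => Q ⟨.b, k⟩).card := by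
  refine card_bij (fun j _ => (e j).2) (fun j hj => ?_) (fun j hj j' hj' hjj => ?_)
    fun k hk => ?_
  · have h1 := (mem_filter.1 hj).2
    have h2 := mem_pts.1 (r.mem j)
    generalize e j = u at *
    obtain ⟨l, i⟩ := u
    obtain rfl : l = .b := cls_zero.1 h1.1
    exact mem_filter.2 ⟨h2, h1.2⟩
  · have h1 := cls_zero.1 (mem_filter.1 hj).2.1
    have h2 := cls_zero.1 (mem_filter.1 hj').2.1
    exact r.inj (Sigma.ext (h1.trans h2.symm) (heq_of_eq hjj))
  · obtain ⟨j, hj⟩ := r.surj ⟨.b, k⟩ (mem_pts.2 (mem_filter.1 hk).1)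
    refine ⟨j, mem_filter.2 ⟨mem_univ _, ?_⟩, by rw [hj]⟩
    rw [hj]
    exact ⟨rfl, (mem_filter.1 hk).2⟩

lemma Valid.vx_eq (h : C.Valid p W) {N : ℕ} {π : Perm (Fin N)} {e : Fin N → Pt}
    (r : Rep C.pts (C.X p) (C.Y p) π e) (i : Fin N) :
    C.vx (e i) = (univ.filter fun j => cls (e j).1 = 0 ∧ j < i).card := by
  obtain ⟨h1, h2⟩ := h.vx_spec (r.mem i)
  simp only [r.hx]
  rw [card_base r fun u => C.X p u < C.X p (e i)]
  have : ((range C.M).filter fun k => C.X p ⟨.b, k⟩ < C.X p (e i)) = range (C.vx (e i)) := by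
    ext k
    simp only [mem_filter, mem_range]
    have := h2 k
    omega
  rw [this, card_range]

lemma Valid.vy_eq (h : C.Valid p W) {N : ℕ} {π : Perm (Fin N)} {e : Fin N → Pt}
    (r : Rep C.pts (C.X p) (C.Y p) π e) (i : Fin N) :
    C.vy (e i) = (univ.filter fun j => cls (e j).1 = 0 ∧ π j < π i).card := by
  obtain ⟨h1, h2⟩ := h.vy_spec (r.mem i)
  simp only [r.hy]
  rw [card_base r fun u => C.Y p u < C.Y p (e i), ← h.cnt h1]
  congr 1
  exact filter_congr fun k hk => (h2 k (mem_range.1 hk)).symm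

lemma Valid.top_T (h : C.Valid p W) {g : ℕ} (hg : (⟨.T, g⟩ : Pt) ∈ C.pts) {v : Pt}
    (hv : v ∈ C.pts) (h1 : C.X p ⟨.T, g⟩ < C.X p v) : ¬ C.Y p ⟨.T, g⟩ < C.Y p v := by
  have a1 := h.ok hg
  have a2 := h.ok hv
  obtain ⟨l, j⟩ := v
  have := h.hM; have := h.gp; have := h.a1; have := h.ag
  cases l <;> simp only [X, Y, Ok] at a1 a2 h1 ⊢ <;> omega

lemma Valid.not_zT (h : C.Valid p W) {C' : Cfg} (h' : C'.Valid p W) {N : ℕ} {π : Perm (Fin N)}
    {e e' : Fin N → Pt} (r : Rep C.pts (C.X p) (C.Y p) π e)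
    (r' : Rep C'.pts (C'.X p) (C'.Y p) π e') {i : Fin N} {g g' : ℕ} (h1 : e i = ⟨.z, g⟩)
    (h2 : e' i = ⟨.T, g'⟩) : False := by
  obtain ⟨j, hj⟩ := r.surj ⟨.T, C.g⟩ (mem_pts.2 h.gT)
  have := h.gp; have := h.a1; have := h.ag
  have h3 : i < j := by
    rw [r.hx, h1, hj]
    simp only [X]
    omega
  have h4 : π i < π j := by
    rw [r.hy, h1, hj]
    simp only [Y]
    omega
  rw [r'.hx, h2] at h3
  rw [r'.hy, h2] at h4
  exact h'.top_T (h2 ▸ r'.mem i) (r'.mem j) h3 h4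

theorem Valid.decode (h : C.Valid p W) {C' : Cfg} (h' : C'.Valid p W)
    {π : Perm (Fin (2 * p + 4 * W + 2))} {e e' : Fin (2 * p + 4 * W + 2) → Pt}
    (r : Rep C.pts (C.X p) (C.Y p) π e) (r' : Rep C'.pts (C'.X p) (C'.Y p) π e') :
    C.M = C'.M ∧ (∀ k, k < C.M → C.ρ k = C'.ρ k) ∧ C.H = C'.H ∧ C.L = C'.L ∧ C.T = C'.T ∧
      C.R = C'.R ∧ C.a = C'.a ∧ C.g = C'.g := by
  have hc : ∀ i, cls (e i).1 = cls (e' i).1 := fun i => by
    rw [h.cls_eq r ⟨p + 2 * W + 1, by omega⟩ rfl, h'.cls_eq r' ⟨p + 2 * W + 1, by omega⟩ rfl]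
  have hx : ∀ i, C.vx (e i) = C'.vx (e' i) := fun i => by
    rw [h.vx_eq r, h'.vx_eq r']
    simp only [hc]
  have hy : ∀ i, C.vy (e i) = C'.vy (e' i) := fun i => by
    rw [h.vy_eq r, h'.vy_eq r']
    simp only [hc]
  have hM : C.M = C'.M := by
    have h1 := card_base r fun _ => True
    have h2 := card_base r' fun _ => True
    simp only [hc, filter_true, card_range] at h1 h2
    rw [← h1, ← h2]
  have he : ∀ i, e i = e' i := by
    intro i
    have h1 := hc i
    have h2 := hx i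
    have h3 := hy i
    have a1 := h.ok (r.mem i)
    have a2 := h'.ok (r'.mem i)
    have n1 := @Valid.not_zT p W C h C' h' _ π e e' r r' i
    have n2 := @Valid.not_zT p W C' h' C h _ π e' e r' r i
    have := h.hM; have := h.gp; have := h.a1; have := h.ag
    have := h'.hM; have := h'.gp; have := h'.a1; have := h'.ag
    generalize e i = u at *
    generalize e' i = u' at *
    obtain ⟨k, j⟩ := u
    obtain ⟨k', j'⟩ := u'
    cases k <;> cases k' <;> simp only [cls, vx, vy, Ok] at h1 h2 h3 a1 a2 <;>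
      first
        | omega
        | exact (n1 rfl rfl).elim
        | exact (n2 rfl rfl).elim
        | (obtain rfl : j = j' := by omega
           rfl)
  have hp : C.pts = C'.pts := by
    ext u
    constructor
    · intro hu
      obtain ⟨i, rfl⟩ := r.surj u hu
      rw [he]
      exact r'.mem i
    · intro hu
      obtain ⟨i, rfl⟩ := r'.surj u hu
      rw [← he]
      exact r.mem i
  have hS : ∀ k, C.S k = C'.S k := by
    intro k
    ext j
    rw [← mem_pts (u := ⟨k, j⟩), hp, mem_pts]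
  obtain ⟨iz, hz⟩ := r.surj ⟨.z, 0⟩ (mem_pts.2 (mem_singleton_self 0))
  refine ⟨hM, fun k hk => ?_, hS .H, hS .L, hS .T, hS .R, ?_, ?_⟩
  · obtain ⟨i, hi⟩ := r.surj ⟨.b, k⟩ (mem_pts.2 (mem_range.2 hk))
    have := hy i
    rwa [← he, hi] at this
  · have := hx iz
    rwa [← he, hz] at this
  · obtain ⟨i, hi⟩ := r.surj ⟨.T, C.g⟩ (mem_pts.2 h.gT)
    obtain ⟨j, hj⟩ := r'.surj ⟨.T, C'.g⟩ (mem_pts.2 h'.gT)
    have h1 := (r.hy iz i).symm.trans (r'.hy iz i)
    have h2 := (r.hy iz j).symm.trans (r'.hy iz j)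
    rw [← he, ← he, hz, hi] at h1
    rw [← he iz, he j, hz, hj] at h2
    have := h.gp; have := h'.gp
    simp only [Y] at h1 h2
    omega

end Cfg

end Pool.Agent.MP_45d82d_co.Neg

end MrgPart1

-- ======== part 2: formerly Pool.Agent.MP_45d82d_co.neg.Box
section MrgPart2

/-!
Partitions in a box as antitone functions, their weights, conjugation, and tail bounds.
-/

set_option autoImplicit false

open Finset

namespace Pool.Agent.MP_45d82d_co.Neg

lemma sum_le_of_inj {α β : Type*} {s : Finset α} {t : Finset β} (φ : α → β)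
    (hm : ∀ a ∈ s, φ a ∈ t) (hi : Set.InjOn φ s) {w : α → ℝ} {w' : β → ℝ}
    (hw : ∀ a ∈ s, w a ≤ w' (φ a)) (h0 : ∀ b ∈ t, 0 ≤ w' b) :
    ∑ a ∈ s, w a ≤ ∑ b ∈ t, w' b := by
  classical
  calc ∑ a ∈ s, w a ≤ ∑ a ∈ s, w' (φ a) := sum_le_sum hw
    _ = ∑ b ∈ s.image φ, w' b := (sum_image hi).symm
    _ ≤ ∑ b ∈ t, w' b := by
      refine sum_le_sum_of_subset_of_nonneg ?_ fun b hb _ => h0 b hb
      intro b hb
      obtain ⟨a, ha, rfl⟩ := mem_image.1 hb
      exact hm a ha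

lemma box_finite (a b : ℕ) : {f : ℕ → ℕ | Antitone f ∧ f a = 0 ∧ f 0 ≤ b}.Finite := by
  refine Set.Finite.of_injOn (f := fun f (i : Fin a) => f i.val)
    (t := Set.pi Set.univ fun _ => Set.Iic b) ?_ ?_ (Set.Finite.pi fun _ => Set.finite_Iic b)
  · intro f hf i _
    exact (hf.1 (Nat.zero_le _)).trans hf.2.2
  · intro f hf g hg h
    funext i
    by_cases hi : i < a
    · exact congrFun h ⟨i, hi⟩
    · have h1 := hf.1 (not_lt.1 hi)
      have h2 := hg.1 (not_lt.1 hi)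
      have := hf.2.1
      have := hg.2.1
      omega

/-- Antitone functions vanishing from `a` on and bounded by `b`. -/
noncomputable def Box (a b : ℕ) : Finset (ℕ → ℕ) := (box_finite a b).toFinset

lemma mem_Box {a b : ℕ} {f : ℕ → ℕ} : f ∈ Box a b ↔ Antitone f ∧ f a = 0 ∧ f 0 ≤ b := by
  simp [Box]

/-- The size. -/
def sz (c : ℕ) (f : ℕ → ℕ) : ℕ := ∑ i ∈ range c, f i

/-- The weight of a set of partitions. -/
noncomputable def Wt (x : ℝ) (c : ℕ) (s : Finset (ℕ → ℕ)) : ℝ := ∑ f ∈ s, x ^ sz c f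

/-- The conjugate. -/
def conj (c : ℕ) (f : ℕ → ℕ) : ℕ → ℕ := fun g => ((range c).filter fun i => g < f i).card

lemma lt_conj {c : ℕ} {f : ℕ → ℕ} (hf : Antitone f) (h0 : f c = 0) (i g : ℕ) :
    i < conj c f g ↔ g < f i := by
  constructor
  · intro h
    by_contra hn
    have : (range c).filter (fun i => g < f i) ⊆ range i := by
      intro k hk
      rw [mem_range]
      by_contra hki
      have := hf (not_lt.1 hki)
      have := (mem_filter.1 hk).2
      omega
    have := card_le_card this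
    rw [card_range] at this
    exact absurd h (not_lt.2 this)
  · intro h
    have hic : i < c := by
      by_contra hn
      have := hf (not_lt.1 hn)
      omega
    have : range (i + 1) ⊆ (range c).filter fun i => g < f i := by
      intro k hk
      rw [mem_range] at hk
      have := hf (Nat.lt_succ_iff.1 hk)
      exact mem_filter.2 ⟨mem_range.2 (by omega), by omega⟩
    have := card_le_card this
    rw [card_range] at this
    exact this

lemma conj_antitone (c : ℕ) (f : ℕ → ℕ) : Antitone (conj c f) := by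
  intro g g' h
  refine card_le_card fun i hi => ?_
  rw [mem_filter] at hi ⊢
  exact ⟨hi.1, lt_of_le_of_lt h hi.2⟩

lemma zero_of_le {a c : ℕ} {f : ℕ → ℕ} (hf : Antitone f) (h0 : f a = 0) (h : a ≤ c) : f c = 0 := by
  have := hf h
  omega

lemma conj_mem {a b c : ℕ} {f : ℕ → ℕ} (ha : a ≤ c) (hf : f ∈ Box a b) : conj c f ∈ Box b a := by
  rw [mem_Box] at hf ⊢
  have h0 := zero_of_le hf.1 hf.2.1 ha
  refine ⟨conj_antitone c f, ?_, ?_⟩
  · have := lt_conj hf.1 h0 0 b
    omega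
  · have := lt_conj hf.1 h0 a 0
    omega

lemma conj_inj {c : ℕ} {f g : ℕ → ℕ} (hf : Antitone f) (hf0 : f c = 0) (hg : Antitone g)
    (hg0 : g c = 0) (h : conj c f = conj c g) : f = g := by
  funext i
  have h1 := lt_conj hf hf0 i (g i)
  have h2 := lt_conj hg hg0 i (f i)
  have h3 := lt_conj hf hf0 i (f i)
  have h4 := lt_conj hg hg0 i (g i)
  rw [h] at h1 h3
  omega

lemma sz_conj {c d : ℕ} {f : ℕ → ℕ} (hf : Antitone f) (hb : f 0 ≤ d) :
    sz d (conj c f) = sz c f := by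
  simp only [sz, conj, card_filter]
  rw [sum_comm]
  refine sum_congr rfl fun i _ => ?_
  rw [← card_filter]
  have : (range d).filter (fun g => g < f i) = range (f i) := by
    ext g
    have := hf (Nat.zero_le i)
    simp only [mem_filter, mem_range]
    omega
  rw [this, card_range]

variable {x : ℝ}

lemma Wt_nonneg (hx : 0 ≤ x) (c : ℕ) (s : Finset (ℕ → ℕ)) : 0 ≤ Wt x c s :=
  sum_nonneg fun _ _ => pow_nonneg hx _

lemma Wt_mono (hx : 0 ≤ x) (c : ℕ) {s t : Finset (ℕ → ℕ)} (h : s ⊆ t) : Wt x c s ≤ Wt x c t :=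
  sum_le_sum_of_subset_of_nonneg h fun _ _ _ => pow_nonneg hx _

lemma Wt_pos (hx : 0 < x) (c a b : ℕ) : 0 < Wt x c (Box a b) :=
  sum_pos (fun _ _ => pow_pos hx _) ⟨fun _ => 0, mem_Box.2 ⟨antitone_const, rfl, Nat.zero_le _⟩⟩

lemma Wt_conj (hx : 0 ≤ x) {a b c : ℕ} (ha : a ≤ c) (hb : b ≤ c) :
    Wt x c (Box a b) ≤ Wt x c (Box b a) := by
  refine sum_le_of_inj (conj c) (fun f hf => conj_mem ha hf) ?_ ?_ fun _ _ => pow_nonneg hx _
  · intro f hf g hg h
    have hf := mem_Box.1 hf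
    have hg := mem_Box.1 hg
    exact conj_inj hf.1 (zero_of_le hf.1 hf.2.1 ha) hg.1 (zero_of_le hg.1 hg.2.1 ha) h
  · intro f hf
    have hf := mem_Box.1 hf
    rw [sz_conj hf.1 (hf.2.2.trans hb)]

/-- Add a part of size `h`. -/
def addP (h : ℕ) (f : ℕ → ℕ) : ℕ → ℕ := fun u => f u + if u < h then 1 else 0

/-- Remove a part of size `h`. -/
def subP (h : ℕ) (f : ℕ → ℕ) : ℕ → ℕ := fun u => f u - if u < h then 1 else 0

lemma sz_addP {c h : ℕ} (hc : h ≤ c) (f : ℕ → ℕ) : sz c (addP h f) = sz c f + h := by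
  simp only [sz, addP, sum_add_distrib]
  rw [← card_filter]
  have : (range c).filter (fun u => u < h) = range h := by
    ext g
    simp only [mem_filter, mem_range]
    omega
  rw [this, card_range]

lemma addP_antitone (h : ℕ) {f : ℕ → ℕ} (hf : Antitone f) : Antitone (addP h f) := by
  intro u v huv
  have := hf huv
  simp only [addP]
  split_ifs <;> omega

lemma addP_subP {v : ℕ} {f : ℕ → ℕ} (hf : Antitone f) (h : f (v + 1) < f v) :
    addP (v + 1) (subP (v + 1) f) = f := by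
  funext u
  simp only [addP, subP]
  split_ifs with hu
  · have := hf (Nat.lt_succ_iff.1 hu)
    omega
  · omega

lemma subP_mem {a b v : ℕ} {f : ℕ → ℕ} (hf : f ∈ Box a b) (h : f (v + 1) < f v) :
    subP (v + 1) f ∈ Box a b := by
  rw [mem_Box] at hf ⊢
  refine ⟨?_, ?_, ?_⟩
  · intro u w huw
    have h1 := hf.1 huw
    simp only [subP]
    split_ifs with h2 h3 h3
    · omega
    · omega
    · have := hf.1 (Nat.lt_succ_iff.1 h3)
      have := hf.1 (not_lt.1 h2)
      omega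
    · omega
  · simp only [subP]
    omega
  · simp only [subP]
    omega

/-- Removing a part of size `v + 1`. -/
lemma Wt_remove (hx : 0 ≤ x) {a b c v : ℕ} (ha : a ≤ c) {s t : Finset (ℕ → ℕ)} (hs : s ⊆ Box a b)
    (h : ∀ f ∈ s, f (v + 1) < f v) (ht : ∀ f ∈ s, subP (v + 1) f ∈ t) :
    Wt x c s ≤ x ^ (v + 1) * Wt x c t := by
  rw [Wt, Wt, mul_sum]
  refine sum_le_of_inj (subP (v + 1)) ht ?_ ?_ fun _ _ => mul_nonneg (pow_nonneg hx _) (pow_nonneg hx _)
  · intro f hf g hg hfg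
    rw [← addP_subP (mem_Box.1 (hs hf)).1 (h f hf), hfg, addP_subP (mem_Box.1 (hs hg)).1 (h g hg)]
  · intro f hf
    have hb := mem_Box.1 (hs hf)
    have hv : v + 1 ≤ c := by
      by_contra hn
      have := zero_of_le hb.1 hb.2.1 (show a ≤ v by omega)
      have := h f hf
      omega
    have := sz_addP hv (subP (v + 1) f)
    rw [addP_subP hb.1 (h f hf)] at this
    rw [this, pow_add, mul_comm]

lemma Wt_split (c : ℕ) (s : Finset (ℕ → ℕ)) (P : (ℕ → ℕ) → Prop) [DecidablePred P] :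
    Wt x c s = Wt x c (s.filter P) + Wt x c (s.filter fun f => ¬ P f) :=
  (sum_filter_add_sum_filter_not s P _).symm

lemma Wt_succ (hx : 0 ≤ x) (hx1 : x < 1) {a b c : ℕ} (ha : a + 1 ≤ c) :
    Wt x c (Box (a + 1) b) ≤ Wt x c (Box a b) * (1 - x ^ (a + 1))⁻¹ := by
  classical
  have h1 : x ^ (a + 1) < 1 := pow_lt_one₀ hx hx1 (Nat.succ_ne_zero a)
  have h2 := Wt_split (x := x) c (Box (a + 1) b) fun f => f a = 0
  have h3 : Wt x c ((Box (a + 1) b).filter fun f => f a = 0) ≤ Wt x c (Box a b) := by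
    refine Wt_mono hx c fun f hf => ?_
    rw [mem_filter, mem_Box] at hf
    exact mem_Box.2 ⟨hf.1.1, hf.2, hf.1.2.2⟩
  have h4 : Wt x c ((Box (a + 1) b).filter fun f => ¬ f a = 0) ≤
      x ^ (a + 1) * Wt x c (Box (a + 1) b) := by
    have hlt : ∀ f ∈ (Box (a + 1) b).filter fun f => ¬ f a = 0, f (a + 1) < f a := by
      intro f hf
      rw [mem_filter, mem_Box] at hf
      omega
    exact Wt_remove hx ha (filter_subset _ _) hlt
      fun f hf => subP_mem (mem_filter.1 hf).1 (hlt f hf)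
  rw [← div_eq_mul_inv, le_div_iff₀ (by linarith)]
  have h5 : Wt x c (Box (a + 1) b) ≤ Wt x c (Box a b) + x ^ (a + 1) * Wt x c (Box (a + 1) b) := by
    exact h2.le.trans (add_le_add h3 h4)
  linarith

lemma Wt_grow (hx : 0 ≤ x) (hx1 : x < 1) {P b c : ℕ} (a : ℕ) (hP : P ≤ a) (ha : a ≤ c) :
    Wt x c (Box a b) ≤ Wt x c (Box P b) * ∏ g ∈ Ioc P a, (1 - x ^ g)⁻¹ := by
  induction a, hP using Nat.le_induction with
  | base => simp
  | succ a hPa ih =>
    have h1 : x ^ (a + 1) < 1 := pow_lt_one₀ hx hx1 (Nat.succ_ne_zero a)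
    rw [prod_Ioc_succ_top hPa, ← mul_assoc]
    refine (Wt_succ hx hx1 ha).trans ?_
    exact mul_le_mul_of_nonneg_right (ih (by omega)) (inv_nonneg.2 (by linarith))

lemma Wt_big (hx : 0 ≤ x) (hx1 : x < 1) {P c : ℕ} (hP : P ≤ c) :
    Wt x c (Box c c) ≤ Wt x c (Box P P) * (∏ g ∈ Ioc P c, (1 - x ^ g)⁻¹) ^ 2 := by
  have hE : 0 ≤ ∏ g ∈ Ioc P c, (1 - x ^ g)⁻¹ := by
    refine prod_nonneg fun g hg => inv_nonneg.2 ?_
    have := pow_le_one₀ (n := g) hx hx1.le
    linarith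
  refine (Wt_grow hx hx1 c hP le_rfl).trans ?_
  rw [sq, ← mul_assoc]
  refine mul_le_mul_of_nonneg_right ?_ hE
  exact (Wt_conj hx hP le_rfl).trans (Wt_grow hx hx1 c hP le_rfl)

/-- Many parts in a short interval are unlikely. -/
lemma Wt_tail (hx : 0 ≤ x) (hx1 : x ≤ 1) {a b c δ h : ℕ} (ha : a ≤ c) (d : ℕ) :
    ∀ v t : ℕ, v + d = h → δ ≤ v →
      Wt x c ((Box a b).filter fun f => f h + t ≤ f v) ≤
        2 ^ d * (2 * x ^ δ) ^ t * Wt x c (Box a b) := by
  classical
  have hW := Wt_nonneg hx c (Box a b)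
  have hy : 0 ≤ x ^ δ := pow_nonneg hx δ
  have hzero : ∀ v d : ℕ, Wt x c ((Box a b).filter fun f => f h + 0 ≤ f v) ≤
      2 ^ d * (2 * x ^ δ) ^ 0 * Wt x c (Box a b) := by
    intro v d
    refine (Wt_mono hx c (filter_subset _ _)).trans ?_
    rw [pow_zero, mul_one]
    exact le_mul_of_one_le_left hW (one_le_pow₀ one_le_two)
  induction d with
  | zero =>
    intro v t hv _
    rcases t with _ | t
    · exact hzero v 0
    · rw [filter_false_of_mem]
      · rw [Wt, sum_empty]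
        positivity
      · intro f _
        rw [← hv]
        simp
  | succ d ih =>
    intro v t hv hδ
    induction t with
    | zero => exact hzero v _
    | succ t iht =>
      have h2 := Wt_split (x := x) c ((Box a b).filter fun f => f h + (t + 1) ≤ f v)
        fun f => f (v + 1) < f v
      have h3 : Wt x c (((Box a b).filter fun f => f h + (t + 1) ≤ f v).filter
          fun f => f (v + 1) < f v) ≤
          x ^ (v + 1) * Wt x c ((Box a b).filter fun f => f h + t ≤ f v) := by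
        refine Wt_remove hx ha ((filter_subset _ _).trans (filter_subset _ _))
          (fun f hf => (mem_filter.1 hf).2) fun f hf => ?_
        rw [mem_filter, mem_filter] at hf
        refine mem_filter.2 ⟨subP_mem hf.1.1 hf.2, ?_⟩
        have := hf.1.2
        simp only [subP]
        split_ifs <;> omega
      have h4 : Wt x c (((Box a b).filter fun f => f h + (t + 1) ≤ f v).filter
          fun f => ¬ f (v + 1) < f v) ≤
          Wt x c ((Box a b).filter fun f => f h + (t + 1) ≤ f (v + 1)) := by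
        refine Wt_mono hx c fun f hf => ?_
        rw [mem_filter, mem_filter] at hf
        exact mem_filter.2 ⟨hf.1.1, by omega⟩
      have h5 := ih (v + 1) (t + 1) (by omega) (by omega)
      have h6 : x ^ (v + 1) ≤ x ^ δ := pow_le_pow_of_le_one hx hx1 (by omega)
      have h7 : x ^ (v + 1) * Wt x c ((Box a b).filter fun f => f h + t ≤ f v) ≤
          x ^ δ * (2 ^ (d + 1) * (2 * x ^ δ) ^ t * Wt x c (Box a b)) :=
        mul_le_mul h6 iht (Wt_nonneg hx _ _) hy
      have h8 : Wt x c ((Box a b).filter fun f => f h + (t + 1) ≤ f v) ≤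
          x ^ δ * (2 ^ (d + 1) * (2 * x ^ δ) ^ t * Wt x c (Box a b)) +
            2 ^ d * (2 * x ^ δ) ^ (t + 1) * Wt x c (Box a b) := by
        exact h2.le.trans (add_le_add (h3.trans h7) (h4.trans h5))
      refine h8.trans (le_of_eq ?_)
      ring

/-- The walk condition below level `h`. -/
def Walk (δ h : ℕ) (f : ℕ → ℕ) : Prop := ∀ v, δ ≤ v → v < h → f v + v ≤ f h + h

open Classical in
lemma Wt_not_walk (hx : 0 ≤ x) (hx1 : x ≤ 1) {a b c δ : ℕ} (ha : a ≤ c) (hδ : x ^ δ ≤ 1 / 16)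
    (h : ℕ) : Wt x c ((Box a b).filter fun f => ¬ Walk δ h f) ≤ 1 / 6 * Wt x c (Box a b) := by
  have hW := Wt_nonneg hx c (Box a b)
  have hy : 0 ≤ x ^ δ := pow_nonneg hx δ
  have h1 : ((Box a b).filter fun f => ¬ Walk δ h f) ⊆ ((range (h + 1 - δ)).biUnion fun d =>
      (Box a b).filter fun f => f h + (d + 1) ≤ f (h - d)) := by
    intro f hf
    rw [mem_filter] at hf
    have := hf.2
    simp only [Walk, not_forall] at this
    obtain ⟨v, h1, h2, h3⟩ := this
    refine mem_biUnion.2 ⟨h - v, mem_range.2 (by omega), mem_filter.2 ⟨hf.1, ?_⟩⟩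
    rw [show h - (h - v) = v by omega]
    omega
  refine (Wt_mono hx c h1).trans ?_
  have h2 : Wt x c ((range (h + 1 - δ)).biUnion fun d =>
      (Box a b).filter fun f => f h + (d + 1) ≤ f (h - d)) ≤
      ∑ d ∈ range (h + 1 - δ), Wt x c ((Box a b).filter fun f => f h + (d + 1) ≤ f (h - d)) := by
    induction range (h + 1 - δ) using Finset.induction_on with
    | empty => simp [Wt]
    | insert d s hd ih =>
      rw [biUnion_insert, sum_insert hd]
      refine le_trans ?_ (add_le_add le_rfl ih)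
      rw [Wt, Wt, Wt, ← sum_union_inter]
      exact le_add_of_nonneg_right (sum_nonneg fun _ _ => pow_nonneg hx _)
  refine h2.trans ?_
  have h3 : ∀ d ∈ range (h + 1 - δ),
      Wt x c ((Box a b).filter fun f => f h + (d + 1) ≤ f (h - d)) ≤
        (1 / 4) ^ d * (1 / 8 * Wt x c (Box a b)) := by
    intro d hd
    rw [mem_range] at hd
    refine (Wt_tail hx hx1 (δ := δ) ha d (h - d) (d + 1) (by omega) (by omega)).trans ?_
    have h4 : (2 * x ^ δ) ^ (d + 1) ≤ (1 / 8) ^ (d + 1) :=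
      pow_le_pow_left₀ (by positivity) (by linarith) _
    have h5 : (2 : ℝ) ^ d * (1 / 8) ^ (d + 1) = (1 / 4) ^ d * (1 / 8) := by
      rw [pow_succ, ← mul_assoc, ← mul_pow]
      norm_num
    rw [← mul_assoc, ← h5]
    gcongr
  refine (sum_le_sum h3).trans ?_
  rw [← sum_mul, range_eq_Ico]
  have h6 := geom_sum_Ico_le_of_lt_one (x := (1 / 4 : ℝ)) (m := 0) (n := h + 1 - δ)
    (by norm_num) (by norm_num)
  have h7 : (1 / 4 : ℝ) ^ 0 / (1 - 1 / 4) = 4 / 3 := by norm_num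
  rw [h7] at h6
  calc _ ≤ 4 / 3 * (1 / 8 * Wt x c (Box a b)) := mul_le_mul_of_nonneg_right h6 (by positivity)
    _ = _ := by ring

end Pool.Agent.MP_45d82d_co.Neg

end MrgPart2

-- ======== part 3: formerly Pool.Agent.MP_45d82d_co.neg.Red
section MrgPart3

/-!
From partitions to 132-avoiders, with and without a marked window.
-/

set_option autoImplicit false

open Finset Equiv

namespace Pool.Agent.MP_45d82d_co.Neg

variable {x : ℝ}

open Classical in
/-- The 132-avoiders of length `p`. -/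
noncomputable def Av132 (p : ℕ) : Finset (Perm (Fin p)) := univ.filter No132

/-- The entries at the places in `[a, g)` lie below all entries before place `a`. -/
def Win {p : ℕ} (σ : Perm (Fin p)) (a g : ℕ) : Prop :=
  ∀ i j : Fin p, i.val < a → a ≤ j.val → j.val < g → σ j < σ i

open Classical in
/-- The 132-avoiders with a marked window. -/
noncomputable def Tri (p : ℕ) : Finset (Perm (Fin p) × ℕ × ℕ) :=
  (univ ×ˢ range (p + 1) ×ˢ range (p + 1)).filter fun q =>
    No132 q.1 ∧ 1 ≤ q.2.1 ∧ q.2.1 ≤ q.2.2 ∧ Win q.1 q.2.1 q.2.2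

open Classical in
/-- The permutation whose code is the conjugate of `f`. -/
noncomputable def dec (p c : ℕ) (f : ℕ → ℕ) : Perm (Fin p) :=
  if h : ∃ σ : Perm (Fin p), ∀ i, code σ univ i = conj c f i.val then h.choose else 1

lemma code_dec {p c : ℕ} {f : ℕ → ℕ} (h : ∀ i, i < p → conj c f i + i < p) (i : Fin p) :
    code (dec p c f) univ i = conj c f i.val := by
  have he : ∃ σ : Perm (Fin p), ∀ i, code σ univ i = conj c f i.val :=
    exists_code (fun i => conj c f i.val) fun i => h i.val i.2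
  rw [dec, dif_pos he]
  exact he.choose_spec i

lemma no132_dec {p c : ℕ} {f : ℕ → ℕ} (h : ∀ i, i < p → conj c f i + i < p) :
    No132 (dec p c f) :=
  no132_of_antitone fun i j hij => by
    rw [code_dec h, code_dec h]
    exact conj_antitone c f hij

lemma invs_dec {p c : ℕ} {f : ℕ → ℕ} (h : ∀ i, i < p → conj c f i + i < p) (hf : Antitone f)
    (h0 : f 0 ≤ p) : (invs (dec p c f)).card = sz c f := by
  rw [card_invs_eq_sum_code, sum_congr rfl fun i _ => code_dec h i,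
    Fin.sum_univ_eq_sum_range (conj c f) p, ← sz_conj hf h0, sz]

lemma dec_inj {p c : ℕ} {f g : ℕ → ℕ} (h : ∀ i, i < p → conj c f i + i < p) (hf : Antitone f)
    (h0 : f 0 ≤ p) (hc : f c = 0) (h' : ∀ i, i < p → conj c g i + i < p) (hg : Antitone g)
    (h0' : g 0 ≤ p) (hc' : g c = 0) (e : dec p c f = dec p c g) : f = g := by
  refine conj_inj hf hc hg hc' (funext fun i => ?_)
  by_cases hi : i < p
  · rw [← code_dec h ⟨i, hi⟩, ← code_dec h' ⟨i, hi⟩, e]
  · have h1 := lt_conj hf hc 0 i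
    have h2 := lt_conj hg hc' 0 i
    omega

lemma fit {P c δ : ℕ} (hP : P ≤ c) (hδ : 2 * δ ≤ P) {f f' : ℕ → ℕ} (hf : f ∈ Box P P)
    (h1 : Walk δ P f) (h2 : Walk δ P (conj c f)) (hf' : Antitone f') (h0 : f' P = 0)
    (hle : ∀ v, f' v ≤ f v + 1) (i : ℕ) (hi : i < P + 2) : conj c f' i + i < P + 2 := by
  have hc := conj_mem hP hf
  rw [mem_Box] at hf hc
  rcases Nat.eq_zero_or_pos (conj c f' i) with h | h
  · omega
  obtain ⟨v, hv⟩ : ∃ v, conj c f' i = v + 1 := ⟨conj c f' i - 1, by omega⟩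
  have h3 : i < f' v := (lt_conj hf' (zero_of_le hf' h0 hP) v i).1 (by omega)
  have h4 := hle v
  have hvP : v < P := by
    by_contra hn
    have := zero_of_le hf' h0 (not_lt.1 hn)
    omega
  by_cases hv' : δ ≤ v
  · have := h1 v hv' hvP
    omega
  by_cases hi' : i ≤ δ
  · omega
  have h5 : v < conj c f (i - 1) := (lt_conj hf.1 (zero_of_le hf.1 hf.2.1 hP) v (i - 1)).2 (by omega)
  have h6 := hf.1 (Nat.zero_le v)
  have h7 := h2 (i - 1) (by omega) (by omega)
  omega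

open Classical in
/-- The good partitions. -/
noncomputable def Good (P c δ h : ℕ) : Finset (ℕ → ℕ) :=
  (Box P P).filter fun f => Walk δ P f ∧ Walk δ P (conj c f) ∧ Walk δ h f

lemma Wt_good (hx : 0 ≤ x) (hx1 : x ≤ 1) {P c δ : ℕ} (hP : P ≤ c) (hδ : x ^ δ ≤ 1 / 16) (h : ℕ) :
    1 / 2 * Wt x c (Box P P) ≤ Wt x c (Good P c δ h) := by
  classical
  have h1 := Wt_not_walk hx hx1 (b := P) hP hδ P
  have h3 := Wt_not_walk hx hx1 (b := P) hP hδ h
  have h2 : Wt x c ((Box P P).filter fun f => ¬ Walk δ P (conj c f)) ≤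
      Wt x c ((Box P P).filter fun f => ¬ Walk δ P f) := by
    refine sum_le_of_inj (conj c) (fun f hf => ?_) ?_ ?_ fun _ _ => pow_nonneg hx _
    · rw [mem_filter] at hf ⊢
      exact ⟨conj_mem hP hf.1, hf.2⟩
    · intro f hf g hg e
      have hf := mem_Box.1 (mem_filter.1 hf).1
      have hg := mem_Box.1 (mem_filter.1 hg).1
      exact conj_inj hf.1 (zero_of_le hf.1 hf.2.1 hP) hg.1 (zero_of_le hg.1 hg.2.1 hP) e
    · intro f hf
      have hf := mem_Box.1 (mem_filter.1 hf).1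
      rw [sz_conj hf.1 (hf.2.2.trans hP)]
  have h4 : Wt x c (Box P P) ≤ Wt x c (Good P c δ h) +
      Wt x c ((Box P P).filter fun f => ¬ Walk δ P f) +
      Wt x c ((Box P P).filter fun f => ¬ Walk δ P (conj c f)) +
      Wt x c ((Box P P).filter fun f => ¬ Walk δ h f) := by
    simp only [Wt, Good, sum_filter, ← sum_add_distrib]
    refine sum_le_sum fun f _ => ?_
    have := pow_nonneg hx (sz c f)
    by_cases a1 : Walk δ P f <;> by_cases a2 : Walk δ P (conj c f) <;>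
      by_cases a3 : Walk δ h f <;> simp [a1, a2, a3] <;> linarith
  linarith

lemma Av132_ge (hx : 0 ≤ x) (hx1 : x ≤ 1) {P c δ : ℕ} (hP : P ≤ c) (hδ : x ^ δ ≤ 1 / 16)
    (hδP : 2 * δ ≤ P) :
    1 / 2 * Wt x c (Box P P) ≤ ∑ σ ∈ Av132 (P + 2), x ^ (invs σ).card := by
  refine (Wt_good hx hx1 hP hδ 0).trans ?_
  have key : ∀ f ∈ Good P c δ 0, (∀ i, i < P + 2 → conj c f i + i < P + 2) ∧ Antitone f ∧
      f 0 ≤ P + 2 ∧ f c = 0 := by
    intro f hf
    simp only [Good, mem_filter] at hf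
    have hb := mem_Box.1 hf.1
    exact ⟨fit hP hδP hf.1 hf.2.1 hf.2.2.1 hb.1 hb.2.1 fun v => Nat.le_succ _, hb.1, by omega,
      zero_of_le hb.1 hb.2.1 hP⟩
  refine sum_le_of_inj (dec (P + 2) c) (fun f hf => ?_) ?_ ?_ fun _ _ => pow_nonneg hx _
  · simp only [Av132, mem_filter, mem_univ, true_and]
    exact no132_dec (key f hf).1
  · intro f hf g hg e
    obtain ⟨a1, a2, a3, a4⟩ := key f hf
    obtain ⟨b1, b2, b3, b4⟩ := key g hg
    exact dec_inj a1 a2 a3 a4 b1 b2 b3 b4 e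
  · intro f hf
    obtain ⟨a1, a2, a3, _⟩ := key f hf
    rw [invs_dec a1 a2 a3]

lemma win_of_code {p a g h : ℕ} {σ : Perm (Fin p)} (hp : h < p)
    (h1 : ∀ i : Fin p, i.val < a → h < code σ univ i)
    (h2 : ∀ j : Fin p, a ≤ j.val → j.val < g → code σ univ j + j.val ≤ h + a) : Win σ a g := by
  have hi : ∀ i : Fin p, i.val < a → h < (σ i).val := by
    intro i hi
    refine (h1 i hi).trans_le ?_
    rw [← val_eq_card σ i]
    exact card_le_card fun k hk => mem_filter.2 ⟨mem_univ _, (mem_filter.1 hk).2.2⟩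
  intro i j hia haj hjg
  have := hi i hia
  rw [Fin.lt_def]
  by_contra hn
  have hj : h < (σ j).val := by omega
  have h3 := card_lt_val σ (h + 1) hp
  have h4 : (univ.filter fun k => (σ k).val < h + 1) ⊆
      (univ.filter fun k : Fin p => k.val < j.val ∧ ¬ k.val < a) ∪
        univ.filter fun k => j < k ∧ σ k < σ j := by
    intro k hk
    have hk := (mem_filter.1 hk).2
    simp only [mem_union, mem_filter, mem_univ, true_and, Fin.lt_def]
    have h5 : ¬ k.val < a := fun h' => by have := hi k h'; omega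
    have h6 : k.val ≠ j.val := fun e => by rw [Fin.ext e] at hk; omega
    omega
  have h5 := (card_le_card h4).trans (card_union_le _ _)
  have h6 := card_filter_add_card_filter_not (s := univ.filter fun k : Fin p => k.val < j.val)
    fun k => k.val < a
  have h7 : ((univ.filter fun k : Fin p => k.val < j.val).filter fun k => k.val < a) =
      univ.filter fun k : Fin p => k.val < a := by
    ext k
    simp only [mem_filter, mem_univ, true_and]
    omega
  rw [h7, filter_filter, Fin.card_filter_val_lt, Fin.card_filter_val_lt] at h6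
  have h8 := h2 j haj hjg
  have h9 := j.2
  unfold code at h8
  omega

lemma Tri_ge (hx : 0 ≤ x) (hx1 : x ≤ 1) {P c δ h0 N : ℕ} (hP : P ≤ c) (hδ : x ^ δ ≤ 1 / 16)
    (hδP : 2 * δ ≤ P) (hh : P + 2 * δ ≤ 2 * h0) (hN : P ≤ N) :
    ((P - h0 : ℕ) : ℝ) * δ * (x ^ (N + 2 * δ + 1) * (1 / 2 * Wt x c (Box P P))) ≤
      ∑ q ∈ Tri (P + 2), x ^ (invs q.1).card * x ^ (N - q.2.2) := by
  have h1 : ((P - h0 : ℕ) : ℝ) * δ * (x ^ (N + 2 * δ + 1) * (1 / 2 * Wt x c (Box P P))) ≤
      ∑ q ∈ (Ico h0 P ×ˢ range δ).sigma (fun he => Good P c δ he.1),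
        x ^ (N + 2 * δ + 1) * x ^ sz c q.2 := by
    rw [sum_sigma]
    refine le_trans (le_of_eq ?_) (sum_le_sum (f := fun _ =>
      x ^ (N + 2 * δ + 1) * (1 / 2 * Wt x c (Box P P))) fun he _ => ?_)
    · rw [sum_const, card_product, Nat.card_Ico, card_range, nsmul_eq_mul, Nat.cast_mul]
    · dsimp only
      rw [← mul_sum]
      exact mul_le_mul_of_nonneg_left (Wt_good hx hx1 hP hδ he.1) (pow_nonneg hx _)
  refine h1.trans ?_
  have key : ∀ q ∈ (Ico h0 P ×ˢ range δ).sigma (fun he => Good P c δ he.1),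
      (∀ i, i < P + 2 → conj c (addP (q.1.1 + 1) q.2) i + i < P + 2) ∧
      Antitone (addP (q.1.1 + 1) q.2) ∧ addP (q.1.1 + 1) q.2 0 ≤ P + 2 ∧
      addP (q.1.1 + 1) q.2 c = 0 ∧ h0 ≤ q.1.1 ∧ q.1.1 < P ∧ q.1.2 < δ ∧ Antitone q.2 ∧
      q.2 q.1.1 + q.1.1 ≤ P ∧ Walk δ q.1.1 q.2 := by
    intro q hq
    simp only [mem_sigma, mem_product, mem_Ico, mem_range, Good, mem_filter] at hq
    obtain ⟨⟨⟨a1, a2⟩, a3⟩, a4, a5, a6, a7⟩ := hq
    have hb := mem_Box.1 a4
    have ha := addP_antitone (q.1.1 + 1) hb.1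
    have hz : addP (q.1.1 + 1) q.2 P = 0 := by
      simp only [addP]
      rw [if_neg (by omega)]
      omega
    refine ⟨fit hP hδP a4 a5 a6 ha hz fun v => ?_, ha, ?_, zero_of_le ha hz hP, a1, a2, a3, hb.1,
      ?_, a7⟩
    · simp only [addP]
      split_ifs <;> omega
    · simp only [addP]
      split_ifs <;> omega
    · have := a5 q.1.1 (by omega) a2
      omega
  refine sum_le_of_inj (fun q => (dec (P + 2) c (addP (q.1.1 + 1) q.2), q.2 q.1.1 + 1,
    q.1.1 - δ - q.1.2)) (fun q hq => ?_) ?_ ?_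
    fun _ _ => mul_nonneg (pow_nonneg hx _) (pow_nonneg hx _)
  · obtain ⟨a1, a2, a3, a4, a5, a6, a7, a8, a9, a10⟩ := key q hq
    simp only [Tri, mem_filter, mem_product, mem_univ, true_and, mem_range]
    refine ⟨⟨by omega, by omega⟩, no132_dec a1, by omega, by omega,
      win_of_code (h := q.1.1) (by omega) (fun i hi => ?_) fun j hj1 hj2 => ?_⟩
    · rw [code_dec a1, lt_conj a2 a4]
      simp only [addP]
      rw [if_pos (by omega)]
      exact hi
    · rw [code_dec a1]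
      have h2 := lt_conj a2 a4 (q.1.1 + (q.2 q.1.1 + 1) - j.val) j.val
      have h3 : ¬ j.val < addP (q.1.1 + 1) q.2 (q.1.1 + (q.2 q.1.1 + 1) - j.val) := by
        simp only [addP]
        rw [if_pos (by omega)]
        rcases hj1.eq_or_lt with e | e
        · rw [show q.1.1 + (q.2 q.1.1 + 1) - j.val = q.1.1 by omega]
          omega
        · have := a10 (q.1.1 + (q.2 q.1.1 + 1) - j.val) (by omega) (by omega)
          omega
      omega
  · rintro ⟨⟨h, e⟩, f⟩ hq ⟨⟨h', e'⟩, f'⟩ hq' he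
    obtain ⟨a1, a2, a3, a4, a5, a6, a7, a8, a9, a10⟩ := key _ hq
    obtain ⟨b1, b2, b3, b4, b5, b6, b7, b8, b9, b10⟩ := key _ hq'
    simp only [Prod.mk.injEq] at he
    dsimp only at a1 a2 a3 a4 a5 a6 a7 a8 a9 a10 b1 b2 b3 b4 b5 b6 b7 b8 b9 b10
    have e1 := dec_inj a1 a2 a3 a4 b1 b2 b3 b4 he.1
    have e2 : h = h' := by
      rcases lt_trichotomy h h' with hl | hl | hl
      · have h2 := congrFun e1 h'
        have h3 := a8 hl.le
        simp only [addP] at h2
        rw [if_neg (by omega), if_pos (by omega)] at h2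
        omega
      · exact hl
      · have h2 := congrFun e1 h
        have h3 := b8 hl.le
        simp only [addP] at h2
        rw [if_pos (by omega), if_neg (by omega)] at h2
        omega
    subst e2
    have e3 : e = e' := by omega
    subst e3
    have e4 : f = f' := by
      funext u
      have h2 := congrFun e1 u
      simp only [addP] at h2
      omega
    rw [e4]
  · intro q hq
    obtain ⟨a1, a2, a3, a4, a5, a6, a7, a8, a9, a10⟩ := key q hq
    dsimp only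
    rw [invs_dec a1 a2 a3, sz_addP (by omega), ← pow_add, ← pow_add]
    exact pow_le_pow_of_le_one hx hx1 (by omega)

end Pool.Agent.MP_45d82d_co.Neg

end MrgPart3

-- ======== part 4: formerly Pool.Agent.MP_45d82d_co.neg.Upper
section MrgPart4

/-!
If the counts are monotone in the length, the inversion generating function of the avoiders of
any length is at most the square of the weight of a box of partitions.
-/

set_option autoImplicit false

open Finset Equiv

namespace Pool.Agent.MP_45d82d_co.Neg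

variable {n : ℕ} {x : ℝ}

open Classical in
/-- The inversion generating function of the avoiders of length `n`. -/
noncomputable def Z (x : ℝ) (n : ℕ) : ℝ :=
  ∑ σ ∈ (univ : Finset (Perm (Fin n))).filter Avoid, x ^ (invs σ).card

lemma exists_free (σ : Perm (Fin n)) {K : ℕ} (hK : (invs σ).card ≤ K) (S : Finset (Fin n))
    (hS : 2 * K < S.card) : ∃ s ∈ S, ∀ j, (s < j → σ s < σ j) ∧ (j < s → σ j < σ s) := by
  have h1 : ((invs σ).image Prod.fst ∪ (invs σ).image Prod.snd).card < S.card := by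
    have := card_union_le ((invs σ).image Prod.fst) ((invs σ).image Prod.snd)
    have := card_image_le (s := invs σ) (f := Prod.fst)
    have := card_image_le (s := invs σ) (f := Prod.snd)
    omega
  obtain ⟨s, hs, hn⟩ := exists_mem_notMem_of_card_lt_card h1
  refine ⟨s, hs, fun j => ⟨fun h => ?_, fun h => ?_⟩⟩
  · by_contra hc
    refine hn (mem_union_left _ (mem_image.2 ⟨(s, j), mem_invs.2 ⟨h, ?_⟩, rfl⟩))
    exact lt_of_le_of_ne (not_lt.1 hc) fun e => h.ne' (σ.injective e)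
  · by_contra hc
    refine hn (mem_union_right _ (mem_image.2 ⟨(j, s), mem_invs.2 ⟨h, ?_⟩, rfl⟩))
    exact lt_of_le_of_ne (not_lt.1 hc) fun e => h.ne' (σ.injective e)

lemma cut_mid {c K : ℕ} (hn : n = 2 * c) (hc : 2 * K < c) {σ : Perm (Fin n)} (hav : Avoid σ)
    (hK : (invs σ).card ≤ K) (i j : Fin n) (hi : i.val < c) (hj : c ≤ j.val) : σ i < σ j := by
  have e1 : (univ.filter fun s : Fin n => s.val < c).card = c := by
    rw [Fin.card_filter_val_lt, min_eq_right (by omega)]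
  have e2 : (univ.filter fun s : Fin n => ¬ s.val < c).card = c := by
    have := card_filter_add_card_filter_not (s := (univ : Finset (Fin n))) fun s => s.val < c
    rw [e1, card_univ, Fintype.card_fin] at this
    omega
  obtain ⟨s, hs, hs'⟩ := exists_free σ hK _ (e1.symm ▸ hc)
  obtain ⟨t, ht, ht'⟩ := exists_free σ hK _ (e2.symm ▸ hc)
  have hs := (mem_filter.1 hs).2
  have ht := (mem_filter.1 ht).2
  by_contra hne
  have hij : i < j := by rw [Fin.lt_def]; omega
  have hlt : σ j < σ i := lt_of_le_of_ne (not_lt.1 hne) fun e => hij.ne' (σ.injective e)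
  have hsj : s < j := by rw [Fin.lt_def]; omega
  have hit : i < t := by rw [Fin.lt_def]; omega
  have h1 := (hs' j).1 hsj
  have h2 := (ht' i).2 hit
  have hsi : s < i := by
    by_contra h
    rcases (not_lt.1 h).eq_or_lt with h | h
    · rw [h] at hlt
      exact lt_asymm h1 hlt
    · exact lt_asymm (((hs' i).2 h).trans h1) hlt
  have hjt : j < t := by
    by_contra h
    rcases (not_lt.1 h).eq_or_lt with h | h
    · rw [h] at h2
      exact lt_asymm h2 hlt
    · exact lt_asymm (h2.trans ((ht' j).1 h)) hlt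
  exact hav ⟨s, i, j, t, hsi, hij, hjt, h1, hlt, h2⟩

/-- The first `c` entries of the code. -/
def hc (c : ℕ) (σ : Perm (Fin n)) : ℕ → ℕ :=
  fun i => if h : i < c ∧ i < n then code σ univ ⟨i, h.2⟩ else 0

lemma hc_mem {c : ℕ} (hcn : c < n) {σ : Perm (Fin n)} (hav : Avoid σ)
    (hcut : ∀ i j : Fin n, i.val < c → c ≤ j.val → σ i < σ j) : hc c σ ∈ Box c c := by
  refine mem_Box.2 ⟨?_, by simp [hc], ?_⟩
  · intro i j hij
    simp only [hc]
    by_cases hj : j < c ∧ j < n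
    · have hi : i < c ∧ i < n := by omega
      rw [dif_pos hj, dif_pos hi]
      rcases hij.eq_or_lt with h | h
      · subst h
        exact le_rfl
      refine card_le_card fun k hk => ?_
      simp only [mem_filter, mem_univ, true_and] at hk ⊢
      have hij' : (⟨i, hi.2⟩ : Fin n) < ⟨j, hj.2⟩ := h
      refine ⟨hij'.trans hk.1, ?_⟩
      by_contra hne
      have hlt : σ ⟨i, hi.2⟩ < σ k :=
        lt_of_le_of_ne (not_lt.1 hne) fun e => (hij'.trans hk.1).ne (σ.injective e)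
      have hkc : k.val < c := by
        by_contra h'
        exact lt_asymm (hcut ⟨j, hj.2⟩ k hj.1 (not_lt.1 h')) hk.2
      exact hav ⟨⟨i, hi.2⟩, ⟨j, hj.2⟩, k, ⟨c, hcn⟩, hij', hk.1, hkc, hlt, hk.2,
        hcut _ _ hj.1 le_rfl⟩
    · rw [dif_neg hj]
      exact Nat.zero_le _
  · simp only [hc]
    split_ifs with h
    · have : (univ.filter fun s : Fin n => s.val < c).card = c := by
        rw [Fin.card_filter_val_lt, min_eq_right hcn.le]
      refine le_trans (card_le_card fun k hk => ?_) this.le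
      simp only [mem_filter, mem_univ, true_and] at hk ⊢
      by_contra h'
      exact lt_asymm (hcut ⟨0, h.2⟩ k h.1 (not_lt.1 h')) hk.2
    · exact Nat.zero_le _

lemma sz_hc {c : ℕ} (hcn : c ≤ n) (σ : Perm (Fin n)) :
    sz c (hc c σ) = ((invs σ).filter fun p => p.1.val < c).card := by
  have h1 : ((invs σ).filter fun p => p.1.val < c).card =
      ∑ i : Fin n, if i.val < c then code σ univ i else 0 := by
    rw [invs, filter_filter, card_filter, Fintype.sum_prod_type]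
    refine sum_congr rfl fun i _ => ?_
    split_ifs with h
    · simp only [code, card_filter, h, and_true]
    · simp [h]
  have h2 : ∀ i : Fin n, (if i.val < c then code σ univ i else 0) = hc c σ i.val := by
    intro i
    simp only [hc, i.2, and_true]
    split_ifs <;> rfl
  rw [h1, sum_congr rfl fun i _ => h2 i, Fin.sum_univ_eq_sum_range (hc c σ) n, sz]
  refine sum_subset (range_subset_range.2 hcn) fun i _ hi => ?_
  rw [mem_range] at hi
  simp [hc, hi]

lemma hc_ext {c : ℕ} {σ τ : Perm (Fin n)} (h : hc c σ = hc c τ) (i : Fin n) (hi : i.val < c) :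
    σ i = τ i := by
  refine lehmer_ext (S := univ) (by simp) c (fun j _ hj => ?_) i (mem_univ _) hi
  have := congrFun h j.val
  simpa [hc, hj, j.2] using this

open Classical in
lemma sum_small_le (hx : 0 ≤ x) (hx1 : x ≤ 1) {c K : ℕ} (hn : n = 2 * c) (hc' : 2 * K < c) :
    ∑ σ ∈ (univ : Finset (Perm (Fin n))).filter (fun σ => Avoid σ ∧ (invs σ).card ≤ K),
      x ^ (invs σ).card ≤ Wt x c (Box c c) ^ 2 := by
  rw [sq, Wt, sum_mul_sum, ← sum_product']
  have hcn : c < n := by omega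
  refine sum_le_of_inj (fun σ => (hc c σ, hc c (rc σ))) ?_ ?_ ?_ ?_
  · intro σ hσ
    have hσ := (mem_filter.1 hσ).2
    refine mem_product.2 ⟨hc_mem hcn hσ.1 (cut_mid hn hc' hσ.1 hσ.2), hc_mem hcn hσ.1.rc ?_⟩
    exact cut_mid hn hc' hσ.1.rc (by rw [card_invs_rc]; exact hσ.2)
  · intro σ _ τ _ h
    have h1 := hc_ext (congrArg Prod.fst h)
    have h2 := hc_ext (congrArg Prod.snd h)
    ext i
    by_cases hi : i.val < c
    · rw [h1 i hi]
    · have := h2 i.rev (by rw [Fin.val_rev]; omega)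
      rw [rc_apply, rc_apply, Fin.rev_rev, Fin.rev_inj] at this
      rw [this]
  · intro σ hσ
    have hσ := (mem_filter.1 hσ).2
    rw [← pow_add]
    refine pow_le_pow_of_le_one hx hx1 ?_
    rw [sz_hc hcn.le, sz_hc hcn.le]
    have e : ((invs (rc σ)).filter fun p => p.1.val < c).card =
        ((invs σ).filter fun p => c ≤ p.2.val).card := by
      symm
      refine card_equiv ((Equiv.prodComm _ _).trans (Fin.revPerm.prodCongr Fin.revPerm))
        fun p => ?_
      have := p.2.2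
      simp only [mem_filter, mem_invs, Equiv.trans_apply, prodComm_apply, prodCongr_apply,
        Prod.map_fst, Prod.map_snd, Prod.fst_swap, Prod.snd_swap, Fin.revPerm_apply, rc_apply,
        Fin.rev_rev, Fin.rev_lt_rev, Fin.val_rev]
      constructor
      · rintro ⟨h1, h2⟩
        exact ⟨h1, by omega⟩
      · rintro ⟨h1, h2⟩
        exact ⟨h1, by omega⟩
    rw [e, ← card_union_of_disjoint]
    · exact card_le_card (union_subset (filter_subset _ _) (filter_subset _ _))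
    · rw [disjoint_left]
      intro p h1 h2
      rw [mem_filter] at h1 h2
      exact lt_asymm (cut_mid hn hc' hσ.1 hσ.2 _ _ h1.2 h2.2) (mem_invs.1 h1.1).2
  · intro b _
    exact mul_nonneg (pow_nonneg hx _) (pow_nonneg hx _)

open Classical in
lemma sum_eq_Av (x : ℝ) (n K : ℕ) :
    ∑ σ ∈ (univ : Finset (Perm (Fin n))).filter (fun σ => Avoid σ ∧ (invs σ).card ≤ K),
      x ^ (invs σ).card = ∑ k ∈ range (K + 1), ((Av n k).card : ℝ) * x ^ k := by
  rw [← sum_fiberwise_of_maps_to (s := univ.filter fun σ : Perm (Fin n) =>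
    Avoid σ ∧ (invs σ).card ≤ K) (t := range (K + 1)) (g := fun σ => (invs σ).card)
    fun σ hσ => mem_range.2 (Nat.lt_succ_of_le (mem_filter.1 hσ).2.2)]
  refine sum_congr rfl fun k hk => ?_
  rw [mem_range] at hk
  have : ((univ.filter fun σ : Perm (Fin n) => Avoid σ ∧ (invs σ).card ≤ K).filter
      fun σ => (invs σ).card = k) = Av n k := by
    ext σ
    simp only [mem_filter, mem_univ, true_and, mem_Av]
    constructor
    · rintro ⟨⟨h1, _⟩, h2⟩
      exact ⟨h1, h2⟩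
    · rintro ⟨h1, h2⟩
      exact ⟨⟨h1, by omega⟩, h2⟩
  rw [this, sum_congr rfl fun σ hσ => by rw [(mem_Av.1 hσ).2], sum_const, nsmul_eq_mul]

theorem Z_le (hx : 0 ≤ x) (hx1 : x ≤ 1) (hm : ∀ k, Monotone fun n => (Av n k).card) (N : ℕ) :
    ∃ c, N ≤ c ∧ Z x N ≤ Wt x c (Box c c) ^ 2 := by
  classical
  refine ⟨2 * (N * N) + 1 + N, by omega, ?_⟩
  refine le_trans ?_ (sum_small_le (n := 2 * (2 * (N * N) + 1 + N)) (K := N * N) hx hx1 rfl
    (by omega))
  have h1 : Z x N = ∑ σ ∈ (univ : Finset (Perm (Fin N))).filter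
      (fun σ => Avoid σ ∧ (invs σ).card ≤ N * N), x ^ (invs σ).card := by
    refine sum_congr (filter_congr fun σ _ => ⟨fun h => ⟨h, ?_⟩, fun h => h.1⟩) fun _ _ => rfl
    have := card_le_univ (invs σ)
    rwa [Fintype.card_prod, Fintype.card_fin] at this
  rw [h1, sum_eq_Av, sum_eq_Av]
  refine sum_le_sum fun k _ => mul_le_mul_of_nonneg_right ?_ (pow_nonneg hx _)
  exact Nat.cast_le.2 (hm k (by omega))

end Pool.Agent.MP_45d82d_co.Neg

end MrgPart4

-- ======== part 5: formerly Pool.Agent.MP_45d82d_co.neg.Build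
section MrgPart5

/-!
The family of configurations and the lower bound for the generating function.
-/

set_option autoImplicit false

open Finset Equiv

namespace Pool.Agent.MP_45d82d_co.Neg

variable {p W : ℕ} {x : ℝ}

/-- A permutation as a function on the naturals. -/
def fn (σ : Perm (Fin p)) (k : ℕ) : ℕ := if h : k < p then (σ ⟨k, h⟩).val else 0

lemma fn_val (σ : Perm (Fin p)) (i : Fin p) : fn σ i.val = (σ i).val := by
  simp [fn]

lemma fn_lt (σ : Perm (Fin p)) {k : ℕ} (hk : k < p) : fn σ k < p := by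
  rw [fn, dif_pos hk]
  exact (σ _).2

lemma fn_inj (σ : Perm (Fin p)) {k l : ℕ} (hk : k < p) (hl : l < p) (h : fn σ k = fn σ l) :
    k = l := by
  rw [fn, fn, dif_pos hk, dif_pos hl] at h
  exact congrArg Fin.val (σ.injective (Fin.ext h))

lemma fn_132 {σ : Perm (Fin p)} (h : No132 σ) {k l m : ℕ} (h1 : k < l) (h2 : l < m) (h3 : m < p)
    (h4 : fn σ k < fn σ m) (h5 : fn σ m < fn σ l) : False := by
  rw [fn, fn, dif_pos (by omega), dif_pos h3] at h4
  rw [fn, fn, dif_pos h3, dif_pos (by omega)] at h5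
  exact h ⟨k, by omega⟩ ⟨l, by omega⟩ ⟨m, h3⟩ h1 h2 h4 h5

/-- The base: `σ`, then fixed points, then the reverse-complement of `τ`. -/
def rho (M : ℕ) (σ τ : Perm (Fin p)) (k : ℕ) : ℕ :=
  if k < p then fn σ k else if k + p < M then k else M - 1 - fn τ (M - 1 - k)

lemma rho_cases {M : ℕ} (hM : 2 * p < M) (σ τ : Perm (Fin p)) {k : ℕ} (hk : k < M) :
    (k < p ∧ rho M σ τ k = fn σ k ∧ fn σ k < p) ∨ (p ≤ k ∧ k + p < M ∧ rho M σ τ k = k) ∨
      (M ≤ k + p ∧ rho M σ τ k + fn τ (M - 1 - k) + 1 = M ∧ fn τ (M - 1 - k) < p) := by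
  unfold rho
  split_ifs with h1 h2
  · exact Or.inl ⟨h1, rfl, fn_lt σ h1⟩
  · exact Or.inr (Or.inl ⟨by omega, h2, rfl⟩)
  · have := fn_lt τ (show M - 1 - k < p by omega)
    exact Or.inr (Or.inr ⟨by omega, by omega, this⟩)

/-- The small subsets of `[1, p]`. -/
def Sub (p W : ℕ) : Finset (Finset ℕ) := (Icc 1 p).powerset.filter fun S => S.card ≤ W

lemma mem_Sub {S : Finset ℕ} : S ∈ Sub p W ↔ S ⊆ Icc 1 p ∧ S.card ≤ W := by
  simp [Sub]

/-- The parameters of a configuration. -/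
abbrev Par (p : ℕ) :=
  (Σ _ : Perm (Fin p) × ℕ × ℕ, Finset ℕ) × Perm (Fin p) × Finset ℕ × Finset ℕ × Finset ℕ

/-- The family of parameters. -/
noncomputable def Fam (p W : ℕ) : Finset (Par p) :=
  ((Tri p).sigma fun q => (Sub p W).filter fun T => q.2.2 ∈ T) ×ˢ
    Av132 p ×ˢ Sub p W ×ˢ Sub p W ×ˢ Sub p W

/-- The number of base points. -/
def bM (W : ℕ) (q : Par p) : ℕ :=
  2 * p + 4 * W + 1 - (q.2.2.1.card + q.2.2.2.1.card + q.1.2.card + q.2.2.2.2.card)

/-- The configuration with given parameters. -/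
def mk (W : ℕ) (q : Par p) : Cfg where
  M := bM W q
  ρ := rho (bM W q) q.1.1.1 q.2.1
  H := q.2.2.1
  L := q.2.2.2.1
  T := q.1.2
  R := q.2.2.2.2
  a := q.1.1.2.1
  g := q.1.1.2.2

lemma valid_mk {q : Par p} (hq : q ∈ Fam p W) : (mk W q).Valid p W := by
  obtain ⟨⟨⟨σ, a, g⟩, T⟩, τ, H, L, R⟩ := q
  simp only [Fam, Tri, Av132, mem_product, mem_sigma, mem_filter, mem_Sub, mem_univ, true_and,
    mem_range] at hq
  obtain ⟨⟨⟨⟨a1, a2⟩, a3, a4, a5, a6⟩, ⟨t1, t2⟩, t3⟩, b1, ⟨h1, h2⟩, ⟨l1, l2⟩, r1, r2⟩ := hq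
  have hM : 2 * p < bM W (⟨⟨⟨σ, a, g⟩, T⟩, τ, H, L, R⟩ : Par p) := by
    simp only [bM]
    omega
  refine ⟨?_, h2, l2, t2, r2, h1, l1, t1, r1, t3, a4, a5, ?_, ?_, ?_, ?_, ?_, ?_, ?_, ?_⟩ <;>
    simp only [mk]
  · simp only [bM]
    omega
  all_goals generalize bM W (⟨⟨⟨σ, a, g⟩, T⟩, τ, H, L, R⟩ : Par p) = M at *
  · intro k hk
    have := rho_cases hM σ τ hk
    omega
  · intro k l hk hl e
    have c1 := rho_cases hM σ τ hk
    have c2 := rho_cases hM σ τ hl
    have c3 := @fn_inj p σ k l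
    have c4 := @fn_inj p τ (M - 1 - k) (M - 1 - l)
    omega
  · intro k hk
    have := rho_cases hM σ τ hk
    omega
  · intro k hk
    have := rho_cases hM σ τ hk
    omega
  · intro k l hkl hl e
    have c1 := rho_cases hM σ τ (hkl.trans hl)
    have c2 := rho_cases hM σ τ hl
    omega
  · intro k l m c1 c2 c3 c4 c5
    have d1 := rho_cases hM σ τ (show k < M by omega)
    have d2 := rho_cases hM σ τ (show l < M by omega)
    have d3 := rho_cases hM σ τ (show m < M by omega)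
    exact fn_132 a3 c1 c2 c3 (by omega) (by omega)
  · intro k l m c1 c2 c3 c4 c5 c6
    have d1 := rho_cases hM σ τ (show k < M by omega)
    have d2 := rho_cases hM σ τ (show l < M by omega)
    have d3 := rho_cases hM σ τ (show m < M by omega)
    exact fn_132 b1 (k := M - 1 - m) (l := M - 1 - l) (m := M - 1 - k) (by omega) (by omega)
      (by omega) (by omega) (by omega)
  · intro k l c1 c2 c3
    have d1 := rho_cases hM σ τ (show k < M by omega)
    have d2 := rho_cases hM σ τ (show l < M by omega)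
    have d3 := a6 ⟨k, by omega⟩ ⟨l, by omega⟩ c1 c2 c3
    rw [Fin.lt_def, ← fn_val, ← fn_val] at d3
    dsimp only at d3
    omega

lemma inv_rho {M : ℕ} (hM : 2 * p < M) (σ τ : Perm (Fin p))
    (hi : ∀ k l, k < l → l < M → rho M σ τ l < rho M σ τ k → l < p ∨ M ≤ k + p) :
    (∑ k ∈ range M, ∑ l ∈ range M, if k < l ∧ rho M σ τ l < rho M σ τ k then 1 else 0) ≤
      (invs σ).card + (invs τ).card := by
  rw [← sum_product', ← card_filter]
  have h1 : ((range M ×ˢ range M).filter fun r => r.1 < r.2 ∧ rho M σ τ r.2 < rho M σ τ r.1) ⊆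
      (invs σ).image (fun r => (r.1.val, r.2.val)) ∪
        (invs τ).image fun r => (M - 1 - r.2.val, M - 1 - r.1.val) := by
    rintro ⟨k, l⟩ hr
    simp only [mem_filter, mem_product, mem_range] at hr
    obtain ⟨⟨c1, c2⟩, c3, c4⟩ := hr
    have d1 := rho_cases hM σ τ c1
    have d2 := rho_cases hM σ τ c2
    rcases hi k l c3 c2 c4 with h | h
    · refine mem_union_left _ (mem_image.2 ⟨(⟨k, by omega⟩, ⟨l, h⟩), mem_invs.2 ⟨c3, ?_⟩, rfl⟩)
      rw [Fin.lt_def, ← fn_val, ← fn_val]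
      dsimp only
      omega
    · refine mem_union_right _ (mem_image.2 ⟨(⟨M - 1 - l, by omega⟩, ⟨M - 1 - k, by omega⟩),
        mem_invs.2 ⟨?_, ?_⟩, ?_⟩)
      · rw [Fin.lt_def]
        dsimp only
        omega
      · rw [Fin.lt_def, ← fn_val, ← fn_val]
        dsimp only
        omega
      · dsimp only
        rw [Prod.mk.injEq]
        omega
  exact (card_le_card h1).trans ((card_union_le _ _).trans (add_le_add card_image_le card_image_le))

lemma invB_mk {q : Par p} (hq : q ∈ Fam p W) :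
    (mk W q).invB ≤ (invs q.1.1.1).card + (invs q.2.1).card :=
  inv_rho (valid_mk hq).hM _ _ (valid_mk hq).inv

lemma fn_ext {σ τ : Perm (Fin p)} (h : ∀ k, k < p → fn σ k = fn τ k) : σ = τ := by
  ext i
  rw [← fn_val, ← fn_val, h i.val i.2]

open Classical in
/-- The pattern of the configuration with given parameters. -/
noncomputable def pat (W : ℕ) (q : Par p) : Perm (Fin (2 * p + 4 * W + 2)) :=
  if h : (mk W q).Valid p W then h.exists_rep.choose else 1

lemma pat_spec {q : Par p} (hq : q ∈ Fam p W) :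
    ∃ e, Rep (mk W q).pts ((mk W q).X p) ((mk W q).Y p) (pat W q) e := by
  rw [pat, dif_pos (valid_mk hq)]
  exact (valid_mk hq).exists_rep.choose_spec

lemma pat_inj : Set.InjOn (pat (p := p) W) (Fam p W : Set (Par p)) := by
  intro q hq q' hq' h
  obtain ⟨e, r⟩ := pat_spec hq
  obtain ⟨e', r'⟩ := pat_spec hq'
  rw [← h] at r'
  have hM := (valid_mk hq).hM
  obtain ⟨h1, h2, h3, h4, h5, h6, h7, h8⟩ := (valid_mk hq).decode (valid_mk hq') r r'
  obtain ⟨⟨⟨σ, a, g⟩, T⟩, τ, H, L, R⟩ := q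
  obtain ⟨⟨⟨σ', a', g'⟩, T'⟩, τ', H', L', R'⟩ := q'
  simp only [mk] at hM h1 h2 h3 h4 h5 h6 h7 h8
  rw [← h1] at h2
  generalize bM W (⟨⟨⟨σ, a, g⟩, T⟩, τ, H, L, R⟩ : Par p) = M at *
  have e1 : σ = σ' := fn_ext fun k hk => by
    have c1 := rho_cases hM σ τ (show k < M by omega)
    have c2 := rho_cases hM σ' τ' (show k < M by omega)
    have := h2 k (by omega)
    omega
  have e2 : τ = τ' := fn_ext fun k hk => by
    have c1 := rho_cases hM σ τ (show M - 1 - k < M by omega)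
    have c2 := rho_cases hM σ' τ' (show M - 1 - k < M by omega)
    have := h2 (M - 1 - k) (by omega)
    rw [show M - 1 - (M - 1 - k) = k by omega] at c1 c2
    omega
  subst e1 e2 h3 h4 h5 h6 h7 h8
  rfl

theorem Z_ge (hx : 0 ≤ x) (hx1 : x ≤ 1) (p W N : ℕ) (hN : N = 2 * p + 4 * W + 2) :
    x ^ (N + (4 * W + 1) ^ 2) *
      ((∑ q ∈ Tri p, x ^ (invs q.1).card *
        ∑ T ∈ (Sub p W).filter (fun T => q.2.2 ∈ T), ∏ g ∈ T, x ^ (N - g)) *
      ((∑ τ ∈ Av132 p, x ^ (invs τ).card) * (∑ S ∈ Sub p W, ∏ g ∈ S, x ^ (N - g)) ^ 3)) ≤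
      Z x N := by
  classical
  have h1 : (∑ q ∈ Tri p, x ^ (invs q.1).card *
        ∑ T ∈ (Sub p W).filter (fun T => q.2.2 ∈ T), ∏ g ∈ T, x ^ (N - g)) *
      ((∑ τ ∈ Av132 p, x ^ (invs τ).card) * (∑ S ∈ Sub p W, ∏ g ∈ S, x ^ (N - g)) ^ 3) =
      ∑ q ∈ Fam p W, (x ^ (invs q.1.1.1).card * ∏ g ∈ q.1.2, x ^ (N - g)) *
        (x ^ (invs q.2.1).card * ((∏ g ∈ q.2.2.1, x ^ (N - g)) *
          ((∏ g ∈ q.2.2.2.1, x ^ (N - g)) * ∏ g ∈ q.2.2.2.2, x ^ (N - g)))) := by
    rw [Fam, pow_three]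
    simp only [sum_product, sum_sigma, ← mul_sum, ← sum_mul]
  rw [h1, mul_sum]
  subst hN
  refine sum_le_of_inj (pat W) (fun q hq => ?_) pat_inj (fun q hq => ?_)
    fun _ _ => pow_nonneg hx _
  · obtain ⟨e, r⟩ := pat_spec hq
    exact mem_filter.2 ⟨mem_univ _, (valid_mk hq).avoid r⟩
  · obtain ⟨e, r⟩ := pat_spec hq
    have h2 := (valid_mk hq).invs_le (by have := (valid_mk hq).size; omega) r
    have h3 := invB_mk hq
    simp only [prod_pow_eq_pow_sum, ← pow_add]
    refine pow_le_pow_of_le_one hx hx1 (h2.trans ?_)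
    simp only [mk] at h3 ⊢
    omega

end Pool.Agent.MP_45d82d_co.Neg

end MrgPart5

-- ======== part 6: formerly Pool.Agent.MP_45d82d_co.neg.Num
section MrgPart6

/-!
Estimates for the tails.
-/

set_option autoImplicit false

open Finset

namespace Pool.Agent.MP_45d82d_co.Neg

lemma prod_le_exp (I : Finset ℕ) {y : ℕ → ℝ} (hy : ∀ g ∈ I, 0 ≤ y g) :
    ∏ g ∈ I, (1 + y g) ≤ Real.exp (∑ g ∈ I, y g) := by
  rw [Real.exp_sum]
  refine prod_le_prod (fun g hg => by have := hy g hg; linarith) fun g _ => ?_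
  have := Real.add_one_le_exp (y g)
  linarith

lemma small_ge (I : Finset ℕ) {y : ℕ → ℝ} (hy : ∀ g ∈ I, 0 ≤ y g) {W : ℕ}
    (hW : Real.exp (∑ g ∈ I, y g) ≤ 2 ^ W) :
    1 / 2 * ∏ g ∈ I, (1 + y g) ≤ ∑ S ∈ I.powerset.filter (fun S => S.card ≤ W), ∏ g ∈ S, y g := by
  have hP : 0 ≤ ∏ g ∈ I, (1 + y g) := prod_nonneg fun g hg => by have := hy g hg; linarith
  have h0 : ∀ S ∈ I.powerset, 0 ≤ ∏ g ∈ S, y g := fun S hS =>
    prod_nonneg fun g hg => hy g (mem_powerset.1 hS hg)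
  have h1 := sum_filter_add_sum_filter_not I.powerset (fun S => S.card ≤ W) fun S => ∏ g ∈ S, y g
  rw [← prod_one_add] at h1
  have h2 : 2 ^ (W + 1) * ∑ S ∈ I.powerset.filter (fun S => ¬ S.card ≤ W), ∏ g ∈ S, y g ≤
      ∏ g ∈ I, (1 + 2 * y g) := by
    rw [prod_one_add, mul_sum]
    refine le_trans (sum_le_sum fun S hS => ?_) (sum_le_sum_of_subset_of_nonneg
      (filter_subset (fun S : Finset ℕ => ¬ S.card ≤ W) _) fun S hS _ =>
        prod_nonneg fun g hg => by have := hy g (mem_powerset.1 hS hg); linarith)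
    rw [mem_filter] at hS
    rw [prod_mul_distrib, prod_const]
    exact mul_le_mul_of_nonneg_right (pow_le_pow_right₀ one_le_two (by omega)) (h0 S hS.1)
  have h3 : ∏ g ∈ I, (1 + 2 * y g) ≤ (∏ g ∈ I, (1 + y g)) * ∏ g ∈ I, (1 + y g) := by
    rw [← prod_mul_distrib]
    refine prod_le_prod (fun g hg => by have := hy g hg; linarith) fun g _ => ?_
    nlinarith [sq_nonneg (y g)]
  have h4 := mul_le_mul_of_nonneg_left ((prod_le_exp I hy).trans hW) hP
  have h5 : (0 : ℝ) < 2 ^ W := by positivity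
  have h6 : 2 * ∑ S ∈ I.powerset.filter (fun S => ¬ S.card ≤ W), ∏ g ∈ S, y g ≤
      ∏ g ∈ I, (1 + y g) := by
    refine le_of_mul_le_mul_left ?_ h5
    rw [← mul_assoc, ← pow_succ, mul_comm (2 ^ W : ℝ)]
    exact h2.trans (h3.trans h4)
  linarith

lemma marked_ge (I : Finset ℕ) {y : ℕ → ℝ} (hy : ∀ g, 0 ≤ y g) (hy1 : ∀ g, y g ≤ 1) {W : ℕ}
    (hW : Real.exp (∑ g ∈ I, y g) ≤ 2 ^ W) {g : ℕ} (hg : g ∈ I) :
    y g * (1 / 4 * ∏ g ∈ I, (1 + y g)) ≤
      ∑ T ∈ (I.powerset.filter fun S => S.card ≤ W + 1).filter (fun T => g ∈ T), ∏ k ∈ T, y k := by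
  have h1 := small_ge (I.erase g) (fun k _ => hy k) (W := W) (le_trans (Real.exp_le_exp.2
    (sum_le_sum_of_subset_of_nonneg (erase_subset _ _) fun k _ _ => hy k)) hW)
  have hP : 0 ≤ ∏ k ∈ I.erase g, (1 + y k) := prod_nonneg fun k _ => by have := hy k; linarith
  have h2 : ∏ k ∈ I, (1 + y k) ≤ 2 * ∏ k ∈ I.erase g, (1 + y k) := by
    rw [← mul_prod_erase I _ hg]
    exact mul_le_mul_of_nonneg_right (by have := hy1 g; linarith) hP
  refine le_trans (mul_le_mul_of_nonneg_left (le_trans (by linarith) h1) (hy g)) ?_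
  rw [mul_sum]
  have hn : ∀ S ∈ (I.erase g).powerset.filter (fun S => S.card ≤ W), g ∉ S := fun S hS h =>
    notMem_erase g I (mem_powerset.1 (mem_filter.1 hS).1 h)
  refine sum_le_of_inj (insert g) (fun S hS => ?_) (fun S hS S' hS' e => ?_) (fun S hS => ?_)
    fun T _ => prod_nonneg fun k _ => hy k
  · have h3 := mem_filter.1 hS
    refine mem_filter.2 ⟨mem_filter.2 ⟨mem_powerset.2 (insert_subset hg
      ((mem_powerset.1 h3.1).trans (erase_subset _ _))), ?_⟩, mem_insert_self _ _⟩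
    have := card_insert_le g S
    omega
  · rw [← erase_insert (hn S hS), e, erase_insert (hn S' hS')]
  · rw [prod_insert (hn S hS)]

lemma inv_le {y : ℝ} (h0 : 0 ≤ y) (h1 : y ≤ 1 / 2) : (1 - y)⁻¹ ≤ (1 + y) * Real.exp (2 * y ^ 2) := by
  have h2 := Real.add_one_le_exp (2 * y ^ 2)
  rw [inv_le_iff_one_le_mul₀ (by linarith)]
  have h3 : (1 + y) * (2 * y ^ 2 + 1) * (1 - y) ≤ (1 + y) * Real.exp (2 * y ^ 2) * (1 - y) := by
    gcongr
    linarith
  refine le_trans ?_ h3
  have h4 : y ^ 2 ≤ 1 / 4 := by nlinarith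
  nlinarith [sq_nonneg y, mul_nonneg (sq_nonneg y) (show 0 ≤ 1 - 2 * y ^ 2 by linarith)]

variable {x : ℝ}

lemma geom_le (hx : 0 ≤ x) (hx1 : x < 1) {D : ℝ} (hD : (1 - x)⁻¹ ≤ D) (I : Finset ℕ) {r : ℕ}
    (hI : ∀ g ∈ I, r ≤ g) : ∑ g ∈ I, x ^ g ≤ x ^ r * D := by
  have h1 : I ⊆ Ico r (I.sup id + 1) := fun g hg =>
    mem_Ico.2 ⟨hI g hg, Nat.lt_succ_of_le (le_sup (f := id) hg)⟩
  refine (sum_le_sum_of_subset_of_nonneg h1 fun g _ _ => pow_nonneg hx g).trans ?_
  refine (geom_sum_Ico_le_of_lt_one hx hx1).trans ?_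
  rw [div_eq_mul_inv]
  exact mul_le_mul_of_nonneg_left hD (pow_nonneg hx r)

lemma prod_reflect {p N : ℕ} (h : p ≤ N) (F : ℕ → ℝ) :
    ∏ g ∈ Icc 1 p, F (N - g) = ∏ g ∈ Ico (N - p) N, F g := by
  refine prod_nbij' (fun g => N - g) (fun g => N - g) ?_ ?_ ?_ ?_ ?_ <;> intro g hg <;>
    simp only [mem_Icc, mem_Ico] at hg ⊢ <;> omega

lemma sum_reflect {p N : ℕ} (h : p ≤ N) (F : ℕ → ℝ) :
    ∑ g ∈ Icc 1 p, F (N - g) = ∑ g ∈ Ico (N - p) N, F g := by
  refine sum_nbij' (fun g => N - g) (fun g => N - g) ?_ ?_ ?_ ?_ ?_ <;> intro g hg <;>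
    simp only [mem_Icc, mem_Ico] at hg ⊢ <;> omega

/-- The tail products with and without repetition are comparable. -/
lemma tails_le (hx : 0 ≤ x) (hx1 : x < 1) {Q : ℝ} (hQ : 2 ≤ Q) (hD : (1 - x)⁻¹ ≤ 2 * Q ^ 2)
    {P A N c : ℕ} (hP : x ^ P = Q⁻¹) (hPA : P < A) (hN : 2 * P ≤ N) (hc : N ≤ c)
    (hA : ((A - P : ℕ) : ℝ) ≤ 24 * Q) :
    ∏ g ∈ Ioc P c, (1 - x ^ g)⁻¹ ≤ Real.exp 30 * ∏ g ∈ Ico A N, (1 + x ^ g) := by
  have hQ0 : 0 < Q := by linarith
  have hy : ∀ g, P ≤ g → x ^ g ≤ Q⁻¹ := fun g hg => hP ▸ pow_le_pow_of_le_one hx hx1.le hg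
  have hQ2 : Q⁻¹ ≤ 1 / 2 := by
    rw [one_div]
    exact inv_anti₀ (by norm_num) hQ
  have h1 : ∏ g ∈ Ioc P c, (1 - x ^ g)⁻¹ ≤
      (∏ g ∈ Ioc P c, (1 + x ^ g)) * Real.exp (∑ g ∈ Ioc P c, 2 * (x ^ g) ^ 2) := by
    rw [Real.exp_sum, ← prod_mul_distrib]
    refine prod_le_prod (fun g hg => inv_nonneg.2 ?_) fun g hg =>
      inv_le (pow_nonneg hx g) ((hy g (mem_Ioc.1 hg).1.le).trans hQ2)
    have := (hy g (mem_Ioc.1 hg).1.le).trans hQ2
    linarith
  have h2 : ∑ g ∈ Ioc P c, 2 * (x ^ g) ^ 2 ≤ 4 := by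
    have h3 := geom_le hx hx1 hD (Ioc P c) (r := P) fun g hg => (mem_Ioc.1 hg).1.le
    calc ∑ g ∈ Ioc P c, 2 * (x ^ g) ^ 2 ≤ ∑ g ∈ Ioc P c, 2 * Q⁻¹ * x ^ g := by
          refine sum_le_sum fun g hg => ?_
          have := hy g (mem_Ioc.1 hg).1.le
          have := pow_nonneg hx g
          nlinarith
      _ ≤ 2 * Q⁻¹ * (x ^ P * (2 * Q ^ 2)) := by
          rw [← mul_sum]
          exact mul_le_mul_of_nonneg_left h3 (by positivity)
      _ = 4 := by
          rw [hP]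
          field_simp
          norm_num
  have hs : Ico A N ⊆ Ioc P c := fun g hg => by
    rw [mem_Ico] at hg
    exact mem_Ioc.2 ⟨by omega, by omega⟩
  have h3 : ∑ g ∈ Ioc P c \ Ico A N, x ^ g ≤ 26 := by
    have h4 : Ioc P c \ Ico A N ⊆ Ico P A ∪ Icc N c := fun g hg => by
      simp only [mem_sdiff, mem_Ioc, mem_Ico, mem_union, mem_Icc] at hg ⊢
      omega
    have h5 := sum_le_sum_of_subset_of_nonneg h4 (f := fun g => x ^ g)
      fun g _ _ => pow_nonneg hx g
    have h6 := sum_union_inter (s₁ := Ico P A) (s₂ := Icc N c) (f := fun g => x ^ g)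
    have h7 : 0 ≤ ∑ g ∈ Ico P A ∩ Icc N c, x ^ g := sum_nonneg fun g _ => pow_nonneg hx g
    have h8 : ∑ g ∈ Ico P A, x ^ g ≤ 24 := by
      refine (sum_le_card_nsmul _ _ Q⁻¹ fun g hg => hy g (mem_Ico.1 hg).1).trans ?_
      rw [Nat.card_Ico, nsmul_eq_mul, ← div_eq_mul_inv, div_le_iff₀ hQ0]
      exact hA
    have h9 : ∑ g ∈ Icc N c, x ^ g ≤ 2 := by
      refine (geom_le hx hx1 hD (Icc N c) (r := 2 * P) fun g hg =>
        hN.trans (mem_Icc.1 hg).1).trans (le_of_eq ?_)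
      rw [mul_comm 2 P, pow_mul, hP]
      field_simp
    linarith
  have h4 : ∏ g ∈ Ioc P c, (1 + x ^ g) ≤ Real.exp 26 * ∏ g ∈ Ico A N, (1 + x ^ g) := by
    rw [← prod_sdiff hs]
    refine mul_le_mul_of_nonneg_right ?_ (prod_nonneg fun g _ => by positivity)
    exact (prod_le_exp _ fun g _ => pow_nonneg hx g).trans (Real.exp_le_exp.2 h3)
  refine h1.trans ?_
  rw [show (30 : ℝ) = 4 + 26 by norm_num, Real.exp_add, mul_assoc, mul_comm (Real.exp 4)]
  exact mul_le_mul h4 (Real.exp_le_exp.2 h2) (Real.exp_pos _).le (by positivity)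

lemma exists_root {K : ℕ} (hK : 0 < K) :
    ∃ x : ℝ, 0 < x ∧ x < 1 ∧ x ^ K = 1 / 2 ∧ (1 - x)⁻¹ ≤ 2 * K := by
  have hK' : (0 : ℝ) < K := Nat.cast_pos.2 hK
  have h1 : ((1 / 2 : ℝ) ^ ((K : ℝ)⁻¹)) ^ K = 1 / 2 :=
    Real.rpow_inv_natCast_pow (by norm_num) hK.ne'
  have h0 : 0 < (1 / 2 : ℝ) ^ ((K : ℝ)⁻¹) := by positivity
  generalize (1 / 2 : ℝ) ^ ((K : ℝ)⁻¹) = x at h0 h1
  have h2 := one_add_mul_le_pow (a := x - 1) (by linarith) K
  rw [add_sub_cancel, h1] at h2
  have h3 : x < 1 := by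
    by_contra h
    have : 0 ≤ (K : ℝ) * (x - 1) := mul_nonneg hK'.le (by linarith)
    linarith
  refine ⟨x, h0, h3, h1, ?_⟩
  rw [inv_le_iff_one_le_mul₀ (by linarith)]
  linarith

end Pool.Agent.MP_45d82d_co.Neg

end MrgPart6

-- ======== part 7: formerly Pool.Agent.MP_45d82d_co.neg.Main
section MrgPart7

/-!
The counts of 1324-avoiders with a fixed number of inversions are not monotone in the length.
-/

set_option autoImplicit false

open Finset

namespace Pool.Agent.MP_45d82d_co.Neg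

lemma lower {x : ℝ} (hx : 0 < x) (hx1 : x < 1) {q m P N c : ℕ} (hq : 2 ≤ q)
    (hK : x ^ q ^ 2 = 1 / 2) (hD : (1 - x)⁻¹ ≤ 2 * (q : ℝ) ^ 2) (hP : P = (2 * m + 8) * q ^ 2)
    (hxP : x ^ P = (q : ℝ)⁻¹) (hN : N = 2 * (P + 2) + 4 * (4 * q + 1) + 2) (hc : N ≤ c) :
    m * (1 / 2) ^ 507 * (Wt x c (Box P P) ^ 2 * (∏ g ∈ Icc 1 (P + 2), (1 + x ^ (N - g))) ^ 4) ≤
      Z x N := by
  have hq0 : (0 : ℝ) < q := Nat.cast_pos.2 (by omega)
  have hδ : x ^ (4 * q ^ 2) ≤ 1 / 16 := by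
    rw [mul_comm, pow_mul, hK]
    norm_num
  have hB := Wt_nonneg hx.le c (Box P P)
  have hy : ∀ g, 0 ≤ x ^ (N - g) := fun g => pow_nonneg hx.le _
  have hy1 : ∀ g, x ^ (N - g) ≤ 1 := fun g => pow_le_one₀ hx.le hx1.le
  have hPi : 0 ≤ ∏ g ∈ Icc 1 (P + 2), (1 + x ^ (N - g)) :=
    prod_nonneg fun g _ => by positivity
  have hS : Real.exp (∑ g ∈ Icc 1 (P + 2), x ^ (N - g)) ≤ 2 ^ (4 * q) := by
    rw [sum_reflect (by omega) fun g => x ^ g]
    have h1 := geom_le hx.le hx1 hD (Ico (N - (P + 2)) N) (r := P) fun g hg => by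
      have := (mem_Ico.1 hg).1
      omega
    have h2 : x ^ P * (2 * (q : ℝ) ^ 2) = ((2 * q : ℕ) : ℝ) * 1 := by
      rw [hxP]
      push_cast
      field_simp
    refine (Real.exp_le_exp.2 (h1.trans h2.le)).trans ?_
    rw [Real.exp_nat_mul, show 4 * q = 2 * (2 * q) by ring, pow_mul (2 : ℝ) 2]
    refine pow_le_pow_left₀ (Real.exp_pos _).le ?_ _
    have := Real.exp_one_lt_three
    linarith
  have hPq : P = 2 * (m * q ^ 2) + 8 * q ^ 2 := by rw [hP]; ring
  have h1 := small_ge (Icc 1 (P + 2)) (y := fun g => x ^ (N - g)) (fun g _ => hy g)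
    (W := 4 * q + 1) (hS.trans (pow_le_pow_right₀ one_le_two (by omega)))
  have h2 := Av132_ge hx.le hx1.le (P := P) (c := c) (by omega) hδ (by omega)
  have h3 := Tri_ge hx.le hx1.le (P := P) (c := c) (h0 := m * q ^ 2 + 8 * q ^ 2) (N := N)
    (by omega) hδ (by omega) (by omega) (by omega)
  have h4 : (∑ r ∈ Tri (P + 2), x ^ (invs r.1).card * x ^ (N - r.2.2)) *
      (1 / 4 * ∏ g ∈ Icc 1 (P + 2), (1 + x ^ (N - g))) ≤
      ∑ r ∈ Tri (P + 2), x ^ (invs r.1).card *
        ∑ T ∈ (Sub (P + 2) (4 * q + 1)).filter (fun T => r.2.2 ∈ T), ∏ g ∈ T, x ^ (N - g) := by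
    rw [sum_mul]
    refine sum_le_sum fun r hr => ?_
    rw [mul_assoc]
    refine mul_le_mul_of_nonneg_left ?_ (pow_nonneg hx.le _)
    refine marked_ge (Icc 1 (P + 2)) (y := fun g => x ^ (N - g)) hy hy1 hS ?_
    simp only [Tri, mem_filter, mem_product, mem_range] at hr
    exact mem_Icc.2 ⟨by omega, by omega⟩
  have h5 := Z_ge hx.le hx1.le (P + 2) (4 * q + 1) N hN
  refine le_trans ?_ h5
  rw [show P - (m * q ^ 2 + 8 * q ^ 2) = m * q ^ 2 by omega] at h3
  have h6 := (mul_le_mul_of_nonneg_right h3 (by positivity)).trans h4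
  have h7 : x ^ (4 * P + 502 * q ^ 2) ≤
      x ^ (N + (4 * (4 * q + 1) + 1) ^ 2) * x ^ (N + 2 * (4 * q ^ 2) + 1) := by
    rw [← pow_add]
    refine pow_le_pow_of_le_one hx.le hx1.le ?_
    rw [hN]
    nlinarith
  have h8 : x ^ (4 * P + 502 * q ^ 2) = (q : ℝ)⁻¹ ^ 4 * (1 / 2) ^ 502 := by
    rw [pow_add, mul_comm 4 P, mul_comm 502, pow_mul, pow_mul, hxP, hK]
  rw [h8] at h7
  change _ ≤ ∑ S ∈ Sub (P + 2) (4 * q + 1), ∏ g ∈ S, x ^ (N - g) at h1
  generalize Wt x c (Box P P) = B at *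
  generalize ∏ g ∈ Icc 1 (P + 2), (1 + x ^ (N - g)) = E at *
  have h9 := pow_nonneg hx.le (N + (4 * (4 * q + 1) + 1) ^ 2)
  have h10 := pow_nonneg hx.le (N + 2 * (4 * q ^ 2) + 1)
  generalize x ^ (N + (4 * (4 * q + 1) + 1) ^ 2) = u at *
  generalize x ^ (N + 2 * (4 * q ^ 2) + 1) = v at *
  calc m * (1 / 2) ^ 507 * (B ^ 2 * E ^ 4)
      = ((q : ℝ)⁻¹ ^ 4 * (1 / 2) ^ 502) * (m * q ^ 4 / 32 * (B ^ 2 * E ^ 4)) := by
        rw [show 507 = 502 + 5 by norm_num, pow_add]
        generalize (1 / 2 : ℝ) ^ 502 = w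
        field_simp
        ring
    _ ≤ (u * v) * (m * q ^ 4 / 32 * (B ^ 2 * E ^ 4)) :=
        mul_le_mul_of_nonneg_right h7 (by positivity)
    _ = u * ((((m * q ^ 2 : ℕ) : ℝ) * ((4 * q ^ 2 : ℕ) : ℝ) * (v * (1 / 2 * B)) * (1 / 4 * E)) *
        (1 / 2 * B * (1 / 2 * E) ^ 3)) := by
        push_cast
        ring
    _ ≤ _ := by
        refine mul_le_mul_of_nonneg_left (mul_le_mul h6 (mul_le_mul h2
          (pow_le_pow_left₀ (by positivity) h1 3) (by positivity)
          (le_trans (by positivity) h2)) (by positivity) (le_trans (by positivity) h6)) h9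

theorem not_monotone : ¬ ∀ k, Monotone fun n => (Av n k).card := by
  intro hm
  obtain ⟨m, hm'⟩ := exists_nat_gt (Real.exp 30 ^ 4 / (1 / 2) ^ 507)
  obtain ⟨q, hq⟩ : ∃ q : ℕ, q = 2 ^ (2 * m + 8) := ⟨_, rfl⟩
  have hq2 : 2 ≤ q := by
    rw [hq]
    exact Nat.le_self_pow (by omega) 2
  obtain ⟨x, hx, hx1, hK, hD⟩ := exists_root (K := q ^ 2) (by positivity)
  push_cast at hD
  obtain ⟨P, hP⟩ : ∃ P, P = (2 * m + 8) * q ^ 2 := ⟨_, rfl⟩
  have hxP : x ^ P = (q : ℝ)⁻¹ := by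
    rw [hP, mul_comm, pow_mul, hK, hq]
    push_cast
    rw [one_div, inv_pow]
  obtain ⟨N, hN⟩ : ∃ N, N = 2 * (P + 2) + 4 * (4 * q + 1) + 2 := ⟨_, rfl⟩
  obtain ⟨c, hc, h1⟩ := Z_le hx.le hx1.le hm N
  have h2 := lower hx hx1 hq2 hK hD hP hxP hN hc
  have h3 := Wt_big hx.le hx1 (P := P) (c := c) (by omega)
  have h4 := tails_le hx.le hx1 (Q := q) (by exact_mod_cast hq2) hD (A := N - (P + 2)) hxP
    (by omega) (by omega : 2 * P ≤ N) hc (by exact_mod_cast (by omega : N - (P + 2) - P ≤ 24 * q))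
  rw [← prod_reflect (by omega) fun g => 1 + x ^ g] at h4
  have hB := Wt_pos hx c P P
  have hE : 0 < ∏ g ∈ Icc 1 (P + 2), (1 + x ^ (N - g)) := prod_pos fun g _ => by positivity
  have hF : 0 ≤ ∏ g ∈ Ioc P c, (1 - x ^ g)⁻¹ := by
    refine prod_nonneg fun g hg => inv_nonneg.2 ?_
    have := pow_le_one₀ (n := g) hx.le hx1.le
    linarith
  have h5 : Wt x c (Box c c) ^ 2 ≤ (Wt x c (Box P P) *
      (Real.exp 30 * ∏ g ∈ Icc 1 (P + 2), (1 + x ^ (N - g))) ^ 2) ^ 2 :=
    pow_le_pow_left₀ (Wt_nonneg hx.le _ _) (h3.trans (mul_le_mul_of_nonneg_left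
      (pow_le_pow_left₀ hF h4 2) hB.le)) 2
  have h6 := h2.trans (h1.trans h5)
  generalize Wt x c (Box P P) = B at *
  generalize ∏ g ∈ Icc 1 (P + 2), (1 + x ^ (N - g)) = E at *
  rw [div_lt_iff₀ (by positivity)] at hm'
  have h7 : (B * (Real.exp 30 * E) ^ 2) ^ 2 = Real.exp 30 ^ 4 * (B ^ 2 * E ^ 4) := by ring
  rw [h7] at h6
  exact absurd (le_of_mul_le_mul_right h6 (by positivity)) (not_le.2 hm')

end Pool.Agent.MP_45d82d_co.Neg

end MrgPart7

-- marker of a merged file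
example : 731051 + 764811 = 731051 + 764811 := rfl
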